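import Mathlib

set_option autoImplicit false

open Set Topology Filter

namespace Pool.Agent.TH276.Torsion

section compact

variable {V : Type*} [NormedAddCommGroup V] [NormedSpace ℝ V]

lemma hull_step {s : Set V} (hs : IsCompact s) (n : ℕ) :
    ∃ K : Set V, IsCompact K ∧ K ⊆ convexHull ℝ s ∧
      ∀ t : Finset V, (t : Set V) ⊆ s → t.card ≤ n + 1 → convexHull ℝ (t : Set V) ⊆ K := by
  classical
  induction n with
  | zero =>
    refine ⟨s, hs, subset_convexHull ℝ s, fun t hts hcard => ?_⟩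
    rcases Nat.eq_zero_or_pos t.card with h | h
    · rw [Finset.card_eq_zero] at h
      subst h
      simp
    · have h1 : t.card = 1 := by omega
      obtain ⟨x, rfl⟩ := Finset.card_eq_one.1 h1
      simpa using hts
  | succ n ih =>
    obtain ⟨K, hK, hKs, hKt⟩ := ih
    set f : V × V × ℝ → V := fun p => (1 - p.2.2) • p.1 + p.2.2 • p.2.1 with hf
    have hfc : Continuous f := by fun_prop
    refine ⟨K ∪ f '' (s ×ˢ K ×ˢ Icc (0:ℝ) 1), hK.union
      ((hs.prod (hK.prod isCompact_Icc)).image hfc), ?_, ?_⟩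
    · refine union_subset hKs ?_
      rintro _ ⟨⟨x, y, r⟩, ⟨hx, hy, hr⟩, rfl⟩
      exact (convex_convexHull ℝ s) (subset_convexHull ℝ s hx) (hKs hy)
        (by linarith [hr.2]) hr.1 (by ring)
    · intro t hts hcard
      rcases Nat.lt_or_ge (n + 1) t.card with h | h
      · obtain ⟨x, t', hxt', rfl, hcard'⟩ := Finset.card_eq_succ.1 (show t.card = (n + 1) + 1 by omega)
        have hne : (t' : Set V).Nonempty := by
          rw [Finset.coe_nonempty, ← Finset.card_pos]; omega
        rw [Finset.coe_insert, convexHull_insert hne]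
        intro z hz
        rw [mem_convexJoin] at hz
        obtain ⟨x', hx', y, hy, hz⟩ := hz
        rw [mem_singleton_iff] at hx'
        subst hx'
        have hyK : y ∈ K := hKt t' (fun w hw => hts (by simp [Finset.mem_coe.1 hw])) (by omega) hy
        rw [segment_eq_image] at hz
        obtain ⟨r, hr, rfl⟩ := hz
        refine Or.inr ⟨(x', y, r), ⟨hts (by simp), hyK, hr⟩, rfl⟩
      · exact (hKt t hts h).trans subset_union_left

/-- The convex hull of a compact set in a finite-dimensional space is compact. -/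
theorem isCompact_convexHull_of_isCompact [FiniteDimensional ℝ V] {s : Set V}
    (hs : IsCompact s) : IsCompact (convexHull ℝ s) := by
  classical
  obtain ⟨K, hK, hKs, hKt⟩ := hull_step hs (Module.finrank ℝ V)
  have : convexHull ℝ s = K := by
    refine Subset.antisymm ?_ hKs
    rw [convexHull_eq_union]
    refine iUnion_subset fun t => iUnion_subset fun hts => iUnion_subset fun hai => ?_
    refine hKt t hts ?_
    have := hai.card_le_finrank_succ
    simpa using this.trans (Nat.succ_le_succ (Submodule.finrank_le _))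
  rw [this]
  exact hK

end compact

variable {E : Type*} [NormedAddCommGroup E] [NormedSpace ℝ E]

/-- A non-vertical supporting hyperplane at a top point above an interior point. -/
theorem exists_support {C : Set (E × ℝ)} (hC : Convex ℝ C) {D : Set E} (hD : IsOpen D)
    (hg : ∀ y ∈ D, ∃ t, 0 ≤ t ∧ (y, t) ∈ C) {x : E} {s : ℝ} (hx : x ∈ D) (hs : 0 ≤ s)
    (htop : ∀ t, (x, t) ∈ C → t ≤ s) :
    ∃ ξ : E →L[ℝ] ℝ, ∀ y t, (y, t) ∈ C → t ≤ s + ξ (y - x) := by
  set C' : Set (E × ℝ) := {p | ∃ t, p.2 ≤ t ∧ (p.1, t) ∈ C} with hC'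
  have hC'conv : Convex ℝ C' := by
    rintro ⟨y1, t1⟩ ⟨r1, hr1, h1⟩ ⟨y2, t2⟩ ⟨r2, hr2, h2⟩ a b ha hb hab
    refine ⟨a * r1 + b * r2, ?_, ?_⟩
    · simp only [Prod.smul_mk, Prod.mk_add_mk, smul_eq_mul]
      exact add_le_add (mul_le_mul_of_nonneg_left hr1 ha) (mul_le_mul_of_nonneg_left hr2 hb)
    · have := hC h1 h2 ha hb hab
      simpa using this
  have hCC' : C ⊆ C' := fun p hp => ⟨p.2, le_rfl, hp⟩
  have hopen : D ×ˢ Iio (0:ℝ) ⊆ interior C' := by
    refine interior_maximal ?_ (hD.prod isOpen_Iio)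
    rintro ⟨y, t⟩ ⟨hy, ht⟩
    obtain ⟨r, hr, hyr⟩ := hg y hy
    exact ⟨r, (le_of_lt ht).trans hr, hyr⟩
  have hz : (x, (-1:ℝ)) ∈ interior C' := hopen ⟨hx, by norm_num⟩
  have hnot : (x, s) ∉ interior C' := by
    intro hmem
    have hc : Continuous (fun δ : ℝ => (x, s + δ)) := by fun_prop
    have h0 : (fun δ : ℝ => (x, s + δ)) ⁻¹' (interior C') ∈ 𝓝 (0:ℝ) :=
      (isOpen_interior.preimage hc).mem_nhds (by simpa using hmem)
    obtain ⟨ε, hε, hball⟩ := Metric.mem_nhds_iff.1 h0
    have : (ε / 2) ∈ Metric.ball (0:ℝ) ε := by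
      rw [Metric.mem_ball, dist_zero_right, Real.norm_eq_abs, abs_of_pos (by linarith)]; linarith
    obtain ⟨t, ht, htC⟩ := interior_subset (hball this)
    have := htop t htC
    simp only at ht
    linarith
  obtain ⟨f, hf⟩ := geometric_hahn_banach_open_point hC'conv.interior isOpen_interior hnot
  have hfle : ∀ p ∈ C', f p ≤ f (x, s) := by
    intro p hp
    -- limit of interior points
    have hlim : Tendsto (fun r : ℝ => f (r • (x, (-1:ℝ)) + (1 - r) • p)) (𝓝[>] 0) (𝓝 (f p)) := by
      have hcont : Continuous (fun r : ℝ => f (r • (x, (-1:ℝ)) + (1 - r) • p)) := by fun_prop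
      have := (hcont.tendsto 0).mono_left (nhdsWithin_le_nhds (s := Ioi (0:ℝ)))
      simpa using this
    refine le_of_tendsto hlim ?_
    filter_upwards [Ioo_mem_nhdsGT (show (0:ℝ) < 1 by norm_num)] with r hr
    exact (hf _ (hC'conv.combo_interior_self_mem_interior hz hp hr.1 (by linarith [hr.2])
      (by ring))).le
  have hsplit : ∀ (y : E) (t : ℝ), f (y, t) = f (y, 0) + t * f (0, 1) := by
    intro y t
    have : (y, t) = (y, (0:ℝ)) + t • ((0 : E), (1:ℝ)) := by simp
    rw [this, map_add, map_smul, smul_eq_mul]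
  set β := f (0, 1) with hβ
  have hβpos : 0 < β := by
    have := hf _ hz
    rw [hsplit x (-1), hsplit x s] at this
    nlinarith
  refine ⟨-(β⁻¹ • (f.comp (ContinuousLinearMap.inl ℝ E ℝ))), fun y t hyt => ?_⟩
  have h1 := hfle _ (hCC' hyt)
  rw [hsplit y t, hsplit x s] at h1
  have h2 : (-(β⁻¹ • (f.comp (ContinuousLinearMap.inl ℝ E ℝ)))) (y - x) =
      β⁻¹ * (f (x, 0) - f (y, 0)) := by
    have : f (y - x, 0) = f (y, 0) - f (x, 0) := by
      rw [← map_sub]; simp
    simp [this]
    ring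
  rw [h2]
  have h3 : t * β ≤ s * β + (f (x, 0) - f (y, 0)) := by linarith
  have h4 : t = β⁻¹ * (t * β) := by field_simp
  calc t = β⁻¹ * (t * β) := h4
    _ ≤ β⁻¹ * (s * β + (f (x, 0) - f (y, 0))) := by
      exact mul_le_mul_of_nonneg_left h3 (inv_nonneg.2 hβpos.le)
    _ = s + β⁻¹ * (f (x, 0) - f (y, 0)) := by field_simp

end Pool.Agent.TH276.Torsion
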