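import Mathlib

set_option autoImplicit false

open MeasureTheory Set Metric
open scoped ENNReal

namespace Pool.Agent.TH276.Torsion

variable {E : Type*} [NormedAddCommGroup E] [NormedSpace ℝ E] [FiniteDimensional ℝ E]
  [MeasurableSpace E] [BorelSpace E] [Nontrivial E] (μ : Measure E) [μ.IsAddHaarMeasure]

/-- Polar coordinates for the lower Lebesgue integral. -/
theorem lintegral_polar {f : E → ℝ≥0∞} (hf : Measurable f) :
    ∫⁻ x, f x ∂μ = ∫⁻ u : sphere (0 : E) 1, (∫⁻ τ in Ioi (0:ℝ),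
      ENNReal.ofReal (τ ^ (Module.finrank ℝ E - 1)) * f (τ • (u : E))) ∂μ.toSphere := by
  have h1 : ∫⁻ x, f x ∂μ = ∫⁻ x : (({0}ᶜ : Set E)), f x ∂(μ.comap (↑)) := by
    rw [lintegral_subtype_comap (measurableSet_singleton _).compl f, restrict_compl_singleton]
  have h2 : ∫⁻ x : (({0}ᶜ : Set E)), f x ∂(μ.comap (↑)) =
      ∫⁻ p : sphere (0:E) 1 × Ioi (0:ℝ), f ((p.2 : ℝ) • (p.1 : E))
        ∂(μ.toSphere.prod (Measure.volumeIoiPow (Module.finrank ℝ E - 1))) := by
    rw [← μ.measurePreserving_homeomorphUnitSphereProd.lintegral_comp_emb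
      (Homeomorph.measurableEmbedding _)]
    refine lintegral_congr (fun x => ?_)
    rw [← homeomorphUnitSphereProd_symm_apply_coe, Homeomorph.symm_apply_apply]
  have hmeas : Measurable (fun p : sphere (0:E) 1 × Ioi (0:ℝ) => f ((p.2 : ℝ) • (p.1 : E))) := by
    refine hf.comp ?_
    exact (measurable_subtype_coe.comp measurable_snd).smul
      (measurable_subtype_coe.comp measurable_fst)
  rw [h1, h2, lintegral_prod _ hmeas.aemeasurable]
  refine lintegral_congr (fun u => ?_)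
  have hmu : Measurable (fun τ : Ioi (0:ℝ) => f ((τ : ℝ) • (u : E))) :=
    hmeas.comp (measurable_const.prodMk measurable_id)
  rw [Measure.volumeIoiPow, lintegral_withDensity_eq_lintegral_mul _ (by fun_prop) hmu]
  exact lintegral_subtype_comap measurableSet_Ioi
    (fun τ : ℝ => ENNReal.ofReal (τ ^ (Module.finrank ℝ E - 1)) * f (τ • (u : E)))

/-- Comparison of integrals from comparison on every ray. -/
theorem lintegral_le_of_rays {ι : Type*} [Fintype ι] {F : E → ℝ≥0∞} {G : ι → E → ℝ≥0∞}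
    {c : ι → ℝ≥0∞} (hF : Measurable F) (hG : ∀ i, Measurable (G i))
    (h : ∀ u : E, ‖u‖ = 1 →
      (∫⁻ τ in Ioi (0:ℝ), ENNReal.ofReal (τ ^ (Module.finrank ℝ E - 1)) * F (τ • u)) ≤
      ∑ i, c i * ∫⁻ τ in Ioi (0:ℝ),
        ENNReal.ofReal (τ ^ (Module.finrank ℝ E - 1)) * G i (τ • u)) :
    ∫⁻ x, F x ∂μ ≤ ∑ i, c i * ∫⁻ x, G i x ∂μ := by
  rw [lintegral_polar μ hF]
  have hmeas : ∀ i, Measurable (fun u : sphere (0:E) 1 => ∫⁻ τ in Ioi (0:ℝ),
        ENNReal.ofReal (τ ^ (Module.finrank ℝ E - 1)) * G i (τ • (u : E))) := by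
    intro i
    refine Measurable.lintegral_prod_right' (f := fun p : sphere (0:E) 1 × ℝ =>
      ENNReal.ofReal (p.2 ^ (Module.finrank ℝ E - 1)) * G i (p.2 • (p.1 : E))) ?_
    refine Measurable.mul ?_ ?_
    · exact (measurable_snd.pow_const _).ennreal_ofReal
    · exact (hG i).comp (measurable_snd.smul (measurable_subtype_coe.comp measurable_fst))
  have hR : ∑ i, c i * ∫⁻ x, G i x ∂μ = ∫⁻ u : sphere (0:E) 1, (∑ i, c i *
      ∫⁻ τ in Ioi (0:ℝ), ENNReal.ofReal (τ ^ (Module.finrank ℝ E - 1)) * G i (τ • (u : E)))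
        ∂μ.toSphere := by
    rw [lintegral_finsetSum _ (fun i _ => (hmeas i).const_mul _)]
    refine Finset.sum_congr rfl (fun i _ => ?_)
    rw [lintegral_const_mul _ (hmeas i), lintegral_polar μ (hG i)]
  rw [hR]
  refine lintegral_mono (fun u => ?_)
  exact h u (by simpa using u.2)

end Pool.Agent.TH276.Torsion
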