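import Mathlib

set_option autoImplicit false

open MeasureTheory Set
open scoped ENNReal

namespace Pool.Agent.TH276.Torsion

/-- Tangent line inequality for the tail integral of an antitone density. -/
lemma tail_tangent {k : ℝ → ℝ≥0∞} (hk : AntitoneOn k (Ioi 0)) {R c ci : ℝ} (hc : 0 < c)
    (hcR : c ≤ R) (hci : 0 < ci) (hciR : ci ≤ R) :
    (∫⁻ τ in Ioc c R, k τ) + k c * ENNReal.ofReal c ≤
      (∫⁻ τ in Ioc ci R, k τ) + k c * ENNReal.ofReal ci := by
  rcases le_total ci c with h | h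
  · have h1 : (∫⁻ τ in Ioc ci R, k τ) = (∫⁻ τ in Ioc ci c, k τ) + ∫⁻ τ in Ioc c R, k τ := by
      rw [← lintegral_union measurableSet_Ioc (Ioc_disjoint_Ioc_of_le le_rfl),
        Ioc_union_Ioc_eq_Ioc h hcR]
    have h2 : k c * ENNReal.ofReal (c - ci) ≤ ∫⁻ τ in Ioc ci c, k τ := by
      calc k c * ENNReal.ofReal (c - ci) = ∫⁻ _ in Ioc ci c, k c := by simp
        _ ≤ _ := setLIntegral_mono' measurableSet_Ioc
          (fun τ hτ => hk (show τ ∈ Ioi (0:ℝ) from hci.trans hτ.1) hc hτ.2)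
    have h3 : ENNReal.ofReal c = ENNReal.ofReal (c - ci) + ENNReal.ofReal ci := by
      rw [← ENNReal.ofReal_add (by linarith) hci.le]; ring_nf
    rw [h1, h3, mul_add]
    calc (∫⁻ τ in Ioc c R, k τ) + (k c * ENNReal.ofReal (c - ci) + k c * ENNReal.ofReal ci)
        = k c * ENNReal.ofReal (c - ci) + (∫⁻ τ in Ioc c R, k τ) + k c * ENNReal.ofReal ci := by
          ring
      _ ≤ _ := by gcongr
  · have h1 : (∫⁻ τ in Ioc c R, k τ) = (∫⁻ τ in Ioc c ci, k τ) + ∫⁻ τ in Ioc ci R, k τ := by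
      rw [← lintegral_union measurableSet_Ioc (Ioc_disjoint_Ioc_of_le le_rfl),
        Ioc_union_Ioc_eq_Ioc h hciR]
    have h2 : (∫⁻ τ in Ioc c ci, k τ) ≤ k c * ENNReal.ofReal (ci - c) := by
      have h4 : (∫⁻ τ in Ioc c ci, k τ) ≤ ∫⁻ _ in Ioc c ci, k c :=
        setLIntegral_mono' measurableSet_Ioc
          (fun τ hτ => hk (show c ∈ Ioi (0:ℝ) from hc) (show τ ∈ Ioi (0:ℝ) from hc.trans hτ.1)
            hτ.1.le)
      refine h4.trans (le_of_eq ?_)
      simp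
    have h3 : ENNReal.ofReal ci = ENNReal.ofReal (ci - c) + ENNReal.ofReal c := by
      rw [← ENNReal.ofReal_add (by linarith) hc.le]; ring_nf
    rw [h1, h3, mul_add]
    calc (∫⁻ τ in Ioc c ci, k τ) + (∫⁻ τ in Ioc ci R, k τ) + k c * ENNReal.ofReal c
        ≤ k c * ENNReal.ofReal (ci - c) + (∫⁻ τ in Ioc ci R, k τ) + k c * ENNReal.ofReal c := by
          gcongr
      _ = _ := by ring

lemma tail_sum {ι : Type*} [Fintype ι] {θ : ι → ℝ} (hθ : ∀ i, 0 ≤ θ i) (hθ1 : ∑ i, θ i = 1)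
    {k : ℝ → ℝ≥0∞} (hk : AntitoneOn k (Ioi 0)) (hkf : ∀ τ, k τ ≠ ∞) {R : ℝ} {c : ι → ℝ}
    (hc : ∀ i, 0 < c i) (hcR : ∀ i, c i ≤ R) :
    (∫⁻ τ in Ioc (∑ i, θ i * c i) R, k τ) ≤
      ∑ i, ENNReal.ofReal (θ i) * ∫⁻ τ in Ioc (c i) R, k τ := by
  classical
  set C := ∑ i, θ i * c i with hC
  have hCpos : 0 < C := by
    have hex : ∃ i, 0 < θ i := by
      by_contra hcon
      push Not at hcon
      have : ∑ i, θ i ≤ 0 := Finset.sum_nonpos (fun i _ => hcon i)
      linarith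
    obtain ⟨i, hi⟩ := hex
    exact Finset.sum_pos' (fun j _ => mul_nonneg (hθ j) (hc j).le)
      ⟨i, Finset.mem_univ i, mul_pos hi (hc i)⟩
  have hCR : C ≤ R := by
    calc C ≤ ∑ i, θ i * R := Finset.sum_le_sum (fun i _ => mul_le_mul_of_nonneg_left (hcR i) (hθ i))
      _ = R := by rw [← Finset.sum_mul, hθ1, one_mul]
  have hone : ∑ i, ENNReal.ofReal (θ i) = 1 := by
    rw [← ENNReal.ofReal_sum_of_nonneg (fun i _ => hθ i), hθ1, ENNReal.ofReal_one]
  have hCsum : ∑ i, ENNReal.ofReal (θ i) * ENNReal.ofReal (c i) = ENNReal.ofReal C := by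
    rw [hC, ENNReal.ofReal_sum_of_nonneg (fun i _ => mul_nonneg (hθ i) (hc i).le)]
    exact Finset.sum_congr rfl (fun i _ => (ENNReal.ofReal_mul (hθ i)).symm)
  have key : ∑ i, ENNReal.ofReal (θ i) *
        ((∫⁻ τ in Ioc C R, k τ) + k C * ENNReal.ofReal C) ≤
      ∑ i, ENNReal.ofReal (θ i) * ((∫⁻ τ in Ioc (c i) R, k τ) + k C * ENNReal.ofReal (c i)) := by
    refine Finset.sum_le_sum (fun i _ => ?_)
    gcongr ENNReal.ofReal (θ i) * ?_
    exact tail_tangent hk hCpos hCR (hc i) (hcR i)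
  rw [← Finset.sum_mul, hone, one_mul] at key
  have hR : ∑ i, ENNReal.ofReal (θ i) *
      ((∫⁻ τ in Ioc (c i) R, k τ) + k C * ENNReal.ofReal (c i)) =
      (∑ i, ENNReal.ofReal (θ i) * ∫⁻ τ in Ioc (c i) R, k τ) + k C * ENNReal.ofReal C := by
    rw [← hCsum, Finset.mul_sum, ← Finset.sum_add_distrib]
    refine Finset.sum_congr rfl (fun i _ => ?_)
    ring
  rw [hR] at key
  exact (ENNReal.add_le_add_iff_right (ENNReal.mul_ne_top (hkf C) ENNReal.ofReal_ne_top)).1 key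

/-- The elementary one-point layer cake formula. -/
lemma layer_point {w F t : ℝ} (hw : 0 ≤ w) (hF : 0 ≤ F) (ht : 0 ≤ t) :
    (∫⁻ l in Ioo (0:ℝ) 1, (if F < l * w then ENNReal.ofReal (w * t) else 0)) =
      ENNReal.ofReal ((w - F) * t) := by
  rcases hw.eq_or_lt with h0 | h0
  · subst h0
    have h1 : ENNReal.ofReal ((0 - F) * t) = 0 := by
      rw [ENNReal.ofReal_eq_zero]
      nlinarith [mul_nonneg hF ht]
    rw [h1]
    simp
  · have hset : ∀ l ∈ Ioo (0:ℝ) 1, (if F < l * w then ENNReal.ofReal (w * t) else 0) =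
        (Ioo (F / w) 1).indicator (fun _ => ENNReal.ofReal (w * t)) l := by
      intro l hl
      by_cases h : F < l * w
      · rw [if_pos h, indicator_of_mem]
        exact ⟨(div_lt_iff₀ h0).2 h, hl.2⟩
      · rw [if_neg h, indicator_of_notMem]
        intro hmem
        exact h ((div_lt_iff₀ h0).1 hmem.1)
    rw [setLIntegral_congr_fun measurableSet_Ioo hset, lintegral_indicator measurableSet_Ioo,
      Measure.restrict_restrict measurableSet_Ioo]
    have hsub : Ioo (F / w) 1 ∩ Ioo (0:ℝ) 1 = Ioo (F / w) 1 := by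
      apply inter_eq_left.2
      intro l hl
      exact ⟨lt_of_le_of_lt (div_nonneg hF h0.le) hl.1, hl.2⟩
    rw [hsub, lintegral_const, Measure.restrict_apply MeasurableSet.univ, univ_inter,
      Real.volume_Ioo, ← ENNReal.ofReal_mul (mul_nonneg hw ht)]
    congr 1
    field_simp

/-- Ray-wise pairing inequality. -/
theorem ray_pairing {ι : Type*} [Fintype ι] {θ : ι → ℝ} (hθ : ∀ i, 0 ≤ θ i)
    (hθ1 : ∑ i, θ i = 1) {w t F : ℝ → ℝ} {G : ι → ℝ → ℝ} {R : ℝ}
    (hwm : Measurable w) (htm : Measurable t) (hFm : Measurable F) (hGm : ∀ i, Measurable (G i))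
    (hw : ∀ τ, 0 ≤ w τ) (ht : ∀ τ, 0 ≤ t τ) (hF : ∀ τ, 0 ≤ F τ) (hG : ∀ i τ, 0 ≤ G i τ)
    (hk : AntitoneOn (fun τ => w τ * t τ) (Ioi 0))
    {T : ℝ → Set ℝ} {S : ι → ℝ → Set ℝ}
    (hSne : ∀ i, ∀ l ∈ Ioo (0:ℝ) 1, (S i l).Nonempty)
    (hSR : ∀ i, ∀ l ∈ Ioo (0:ℝ) 1, S i l ⊆ Ioc 0 R)
    (hSdown : ∀ i, ∀ l ∈ Ioo (0:ℝ) 1, ∀ τ ∈ S i l, ∀ τ', 0 < τ' → τ' ≤ τ → τ' ∈ S i l)
    (hpair : ∀ l ∈ Ioo (0:ℝ) 1, ∀ τ : ι → ℝ, (∀ i, τ i ∈ S i l) → ∑ i, θ i * τ i ∈ T l)
    (hTF : ∀ l ∈ Ioo (0:ℝ) 1, ∀ τ ∈ T l, l * w τ ≤ F τ)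
    (hGS : ∀ i, ∀ l ∈ Ioo (0:ℝ) 1, ∀ τ ∈ Ioc 0 R, 0 < w τ → l * w τ ≤ G i τ → τ ∈ S i l) :
    (∫⁻ τ in Ioc 0 R, ENNReal.ofReal ((w τ - F τ) * t τ)) ≤
      ∑ i, ENNReal.ofReal (θ i) * ∫⁻ τ in Ioc 0 R, ENNReal.ofReal ((w τ - G i τ) * t τ) := by
  classical
  set k : ℝ → ℝ≥0∞ := fun τ => ENNReal.ofReal (w τ * t τ) with hkdef
  have hkanti : AntitoneOn k (Ioi 0) := fun a ha b hb hab =>
    ENNReal.ofReal_le_ofReal (hk ha hb hab)
  have hkf : ∀ τ, k τ ≠ ∞ := fun τ => ENNReal.ofReal_ne_top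
  have hlayer : ∀ H : ℝ → ℝ, Measurable H → (∀ τ, 0 ≤ H τ) →
      (∫⁻ τ in Ioc 0 R, ENNReal.ofReal ((w τ - H τ) * t τ)) =
      ∫⁻ l in Ioo (0:ℝ) 1, ∫⁻ τ in Ioc 0 R, (if H τ < l * w τ then k τ else 0) := by
    intro H hHm hH
    rw [lintegral_lintegral_swap]
    · refine lintegral_congr (fun τ => ?_)
      exact (layer_point (hw τ) (hH τ) (ht τ)).symm
    · refine Measurable.aemeasurable ?_
      refine Measurable.ite ?_ ?_ measurable_const
      · exact measurableSet_lt (hHm.comp measurable_snd)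
          (measurable_fst.mul (hwm.comp measurable_snd))
      · exact ((hwm.mul htm).comp measurable_snd).ennreal_ofReal
  rw [hlayer F hFm hF]
  have hrhs : ∑ i, ENNReal.ofReal (θ i) * ∫⁻ τ in Ioc 0 R, ENNReal.ofReal ((w τ - G i τ) * t τ) =
      ∫⁻ l in Ioo (0:ℝ) 1, ∑ i, ENNReal.ofReal (θ i) *
        ∫⁻ τ in Ioc 0 R, (if G i τ < l * w τ then k τ else 0) := by
    have hmeas : ∀ i, Measurable (fun l : ℝ => ∫⁻ τ in Ioc 0 R,
        (if G i τ < l * w τ then k τ else 0)) := by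
      intro i
      refine Measurable.lintegral_prod_right' (f := fun p : ℝ × ℝ =>
        (if G i p.2 < p.1 * w p.2 then k p.2 else 0)) ?_
      refine Measurable.ite ?_ ?_ measurable_const
      · exact measurableSet_lt ((hGm i).comp measurable_snd)
          (measurable_fst.mul (hwm.comp measurable_snd))
      · exact ((hwm.mul htm).comp measurable_snd).ennreal_ofReal
    rw [lintegral_finsetSum _ (fun i _ => (hmeas i).const_mul _)]
    refine Finset.sum_congr rfl (fun i _ => ?_)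
    rw [lintegral_const_mul _ (hmeas i), hlayer (G i) (hGm i) (hG i)]
  rw [hrhs]
  refine setLIntegral_mono' measurableSet_Ioo (fun l hl => ?_)
  -- fixed level
  set c : ι → ℝ := fun i => sSup (S i l) with hcdef
  have hbdd : ∀ i, BddAbove (S i l) := fun i => ⟨R, fun τ hτ => (hSR i l hl hτ).2⟩
  have hcpos : ∀ i, 0 < c i := by
    intro i
    obtain ⟨τ, hτ⟩ := hSne i l hl
    exact lt_of_lt_of_le (hSR i l hl hτ).1 (le_csSup (hbdd i) hτ)
  have hcR : ∀ i, c i ≤ R := fun i => csSup_le (hSne i l hl) (fun τ hτ => (hSR i l hl hτ).2)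
  have h1 : (∫⁻ τ in Ioc 0 R, (if F τ < l * w τ then k τ else 0)) ≤
      ∫⁻ τ in Ioc (∑ i, θ i * c i) R, k τ := by
    set C := ∑ i, θ i * c i with hC
    have hC0 : 0 ≤ C := Finset.sum_nonneg (fun i _ => mul_nonneg (hθ i) (hcpos i).le)
    have hptw : ∀ τ ∈ Ioc 0 R, (if F τ < l * w τ then k τ else 0) ≤
        (Ici C).indicator k τ := by
      intro τ hτ
      by_cases hτC : C ≤ τ
      · rw [indicator_of_mem (show τ ∈ Ici C from hτC)]
        split_ifs <;> simp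
      · push Not at hτC
        have hCpos : 0 < C := hτ.1.trans hτC
        have hmemT : τ ∈ T l := by
          have hτi : ∀ i, τ * c i / C ∈ S i l := by
            intro i
            have hlt : τ * c i / C < c i := by
              rw [div_lt_iff₀ hCpos, mul_comm]
              exact mul_lt_mul_of_pos_left hτC (hcpos i)
            obtain ⟨τ', hτ', hlt'⟩ := exists_lt_of_lt_csSup (hSne i l hl) hlt
            exact hSdown i l hl τ' hτ' _ (div_pos (mul_pos hτ.1 (hcpos i)) hCpos) hlt'.le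
          have := hpair l hl _ hτi
          have heq : ∑ i, θ i * (τ * c i / C) = τ := by
            have : ∑ i, θ i * (τ * c i / C) = τ * (∑ i, θ i * c i) / C := by
              rw [Finset.mul_sum, Finset.sum_div]
              exact Finset.sum_congr rfl (fun i _ => by ring)
            rw [this, ← hC]
            field_simp
          rwa [heq] at this
        have := hTF l hl τ hmemT
        rw [if_neg (not_lt.2 this)]
        exact zero_le
    calc (∫⁻ τ in Ioc 0 R, (if F τ < l * w τ then k τ else 0))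
        ≤ ∫⁻ τ in Ioc 0 R, (Ici C).indicator k τ := setLIntegral_mono' measurableSet_Ioc hptw
      _ = ∫⁻ τ in Ici C ∩ Ioc 0 R, k τ := by
        rw [lintegral_indicator measurableSet_Ici, Measure.restrict_restrict measurableSet_Ici]
      _ ≤ ∫⁻ τ in Icc C R, k τ := by
        refine lintegral_mono_set ?_
        intro τ hτ
        exact ⟨hτ.1, hτ.2.2⟩
      _ = ∫⁻ τ in Ioc C R, k τ := setLIntegral_congr Ioc_ae_eq_Icc.symm
  refine h1.trans ((tail_sum hθ hθ1 hkanti hkf hcpos hcR).trans ?_)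
  refine Finset.sum_le_sum (fun i _ => ?_)
  gcongr ENNReal.ofReal (θ i) * ?_
  calc (∫⁻ τ in Ioc (c i) R, k τ) ≤ ∫⁻ τ in Ioc (c i) R, (if G i τ < l * w τ then k τ else 0) := by
        refine setLIntegral_mono' measurableSet_Ioc (fun τ hτ => ?_)
        have hτ0 : 0 < τ := (hcpos i).trans hτ.1
        have hnot : τ ∉ S i l := fun hmem => absurd (le_csSup (hbdd i) hmem) (not_le.2 hτ.1)
        rcases (hw τ).eq_or_lt with h0 | h0
        · have : k τ = 0 := by simp [hkdef, ← h0]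
          rw [this]; exact zero_le
        · have : G i τ < l * w τ := by
            by_contra hcon
            exact hnot (hGS i l hl τ ⟨hτ0, hτ.2⟩ h0 (not_lt.1 hcon))
          rw [if_pos this]
    _ ≤ _ := lintegral_mono_set (Ioc_subset_Ioc_left (hcpos i).le)

end Pool.Agent.TH276.Torsion
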