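import Mathlib
import Pool.Agent.TH276.Torsion.Ray
import Pool.Agent.TH276.Torsion.Polar

set_option autoImplicit false

open MeasureTheory Set Metric
open scoped ENNReal

namespace Pool.Agent.TH276.Torsion

lemma antitone_weight {α : ℝ} (hα : 0 < α) (p : ℝ) :
    AntitoneOn (fun τ : ℝ => (max (1 + τ * p) 0) ^ α * |τ| ^ (-(1 + α))) (Ioi 0) := by
  have key : ∀ τ : ℝ, 0 < τ → (max (1 + τ * p) 0) ^ α * |τ| ^ (-(1 + α)) =
      (max (τ⁻¹ + p) 0) ^ α * τ⁻¹ := by
    intro τ hτ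
    have h1 : max (1 + τ * p) 0 = τ * max (τ⁻¹ + p) 0 := by
      rw [mul_max_of_nonneg _ _ hτ.le, mul_zero, mul_add, mul_inv_cancel₀ hτ.ne']
    rw [h1, Real.mul_rpow hτ.le (le_max_right _ _), abs_of_pos hτ,
      show -(1 + α) = -1 + -α by ring, Real.rpow_add hτ, Real.rpow_neg_one, Real.rpow_neg hτ.le]
    have : τ ^ α ≠ 0 := (Real.rpow_pos_of_pos hτ α).ne'
    field_simp
  intro a ha b hb hab
  have ha' : 0 < a := ha
  have hb' : 0 < b := hb
  simp only
  rw [key a ha', key b hb']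
  have hinv : b⁻¹ ≤ a⁻¹ := inv_anti₀ ha' hab
  refine mul_le_mul ?_ hinv (inv_nonneg.2 hb'.le) (Real.rpow_nonneg (le_max_right _ _) _)
  exact Real.rpow_le_rpow (le_max_right _ _) (max_le_max_right _ (by linarith)) hα.le

variable {E : Type*} [NormedAddCommGroup E] [NormedSpace ℝ E]

section ray

variable {α : ℝ} {C : Set (E × ℝ)} {Φ Ψ : E → ℝ} {ι : Type*} [Fintype ι] {lam v : ι → ℝ}
  {x : ι → E} {X : E} {s : ℝ} {ξ : E →L[ℝ] ℝ} {R : ℝ}

lemma contact_eq (hlam : ∀ i, 0 < lam i) (hlam1 : ∑ i, lam i = 1)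
    (hxC : ∀ i, (x i, v i) ∈ C) (hX : ∑ i, lam i • x i = X) (hs : ∑ i, lam i * v i = s)
    (hξ : ∀ y t, (y, t) ∈ C → t ≤ s + ξ (y - X)) (i : ι) : v i = s + ξ (x i - X) := by
  have hle : ∀ i, v i ≤ s + ξ (x i - X) := fun i => hξ _ _ (hxC i)
  have hsum : ∑ i, lam i * (s + ξ (x i - X) - v i) = 0 := by
    have h1 : ∑ i, lam i * (s + ξ (x i - X) - v i) =
        (∑ i, lam i) * s + ξ (∑ i, lam i • x i) - (∑ i, lam i) * ξ X - ∑ i, lam i * v i := by
      rw [map_sum, Finset.sum_mul, Finset.sum_mul, ← Finset.sum_add_distrib,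
        ← Finset.sum_sub_distrib, ← Finset.sum_sub_distrib]
      refine Finset.sum_congr rfl (fun i _ => ?_)
      rw [map_sub, map_smul, smul_eq_mul]
      ring
    rw [h1, hlam1, hX, hs]
    ring
  have h2 := (Finset.sum_eq_zero_iff_of_nonneg
    (fun i _ => mul_nonneg (hlam i).le (sub_nonneg.2 (hle i)))).1 hsum i (Finset.mem_univ i)
  rcases mul_eq_zero.1 h2 with h | h
  · exact absurd h (hlam i).ne'
  · linarith

theorem ray_ineq (hα : 0 < α) (hC : Convex ℝ C) (hΦc : Continuous Φ) (hΦ0 : ∀ y, 0 ≤ Φ y)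
    (hΦC : ∀ y, 0 < Φ y → (y, Φ y ^ (1 / α)) ∈ C) {Ψr : ℝ → ℝ} (hΨr0 : ∀ τ, 0 ≤ Ψr τ)
    (hΨrm : Measurable Ψr)
    (hC0 : ∀ y t, (y, t) ∈ C → 0 ≤ t)
    (hlam : ∀ i, 0 < lam i) (hlam1 : ∑ i, lam i = 1)
    (hv : ∀ i, v i = Φ (x i) ^ (1 / α)) (hxC : ∀ i, (x i, v i) ∈ C)
    (hX : ∑ i, lam i • x i = X) (hs : ∑ i, lam i * v i = s) (hspos : 0 < s)
    (hξ : ∀ y t, (y, t) ∈ C → t ≤ s + ξ (y - X)) (hR : 0 < R) (u : E)
    (hΨr : ∀ τ t, (X + (s * τ) • u, t) ∈ C → t ^ α ≤ s ^ α * Ψr τ) :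
    (∫⁻ τ in Ioc 0 R, ENNReal.ofReal
      (((max (1 + τ * ξ u) 0) ^ α - Ψr τ) * |τ| ^ (-(1 + α)))) ≤
    ∑ i, ENNReal.ofReal (lam i * v i / s) * ∫⁻ τ in Ioc 0 R, ENNReal.ofReal
      (((max (1 + τ * ξ u) 0) ^ α - Φ (x i + (v i * τ) • u) / (v i) ^ α) *
        |τ| ^ (-(1 + α))) := by
  have hv0 : ∀ i, 0 ≤ v i := fun i => hC0 _ _ (hxC i)
  have hceq := contact_eq hlam hlam1 hxC hX hs hξ
  -- upper bound at contact points
  have hup : ∀ i τ t, (x i + (v i * τ) • u, t) ∈ C → t ≤ v i * (1 + τ * ξ u) := by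
    intro i τ t hmem
    have h1 := hξ _ _ hmem
    have h2 : ξ (x i + (v i * τ) • u - X) = ξ (x i - X) + v i * τ * ξ u := by
      rw [show x i + (v i * τ) • u - X = (x i - X) + (v i * τ) • u by abel, map_add, map_smul,
        smul_eq_mul]
    rw [h2] at h1
    have h3 := hceq i
    nlinarith
  have hupX : ∀ τ t, (X + (s * τ) • u, t) ∈ C → t ≤ s * (1 + τ * ξ u) := by
    intro τ t hmem
    have h1 := hξ _ _ hmem
    have h2 : ξ (X + (s * τ) • u - X) = s * τ * ξ u := by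
      rw [show X + (s * τ) • u - X = (s * τ) • u by abel, map_smul, smul_eq_mul]
    rw [h2] at h1
    nlinarith
  have hαinv : 0 < 1 / α := by positivity
  have hlpow : ∀ l : ℝ, 0 < l → (l ^ (1 / α)) ^ α = l := by
    intro l hl
    rw [← Real.rpow_mul hl.le, one_div, inv_mul_cancel₀ hα.ne', Real.rpow_one]
  have hlpos : ∀ l ∈ Ioo (0:ℝ) 1, 0 < l ^ (1 / α) := fun l hl => Real.rpow_pos_of_pos hl.1 _
  have hllt : ∀ l ∈ Ioo (0:ℝ) 1, l ^ (1 / α) < 1 := fun l hl =>
    Real.rpow_lt_one hl.1.le hl.2 hαinv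
  have hconstI : ∀ i, Continuous (fun τ : ℝ => Φ (x i + (v i * τ) • u) / (v i) ^ α) := by
    intro i
    exact (hΦc.comp (by fun_prop)).div_const _
  refine ray_pairing (θ := fun i => lam i * v i / s)
    (w := fun τ => (max (1 + τ * ξ u) 0) ^ α) (t := fun τ => |τ| ^ (-(1 + α)))
    (F := Ψr)
    (G := fun i τ => Φ (x i + (v i * τ) • u) / (v i) ^ α)
    (T := fun l => {τ | ∃ t, (X + (s * τ) • u, t) ∈ C ∧ l ^ (1 / α) * (s * (1 + τ * ξ u)) ≤ t})
    (S := fun i l => {τ | τ ∈ Ioc 0 R ∧ ∃ t, (x i + (v i * τ) • u, t) ∈ C ∧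
      l ^ (1 / α) * (v i * (1 + τ * ξ u)) ≤ t})
    (fun i => div_nonneg (mul_nonneg (hlam i).le (hv0 i)) hspos.le)
    (by rw [← Finset.sum_div, hs, div_self hspos.ne'])
    ?_ ?_ hΨrm (fun i => (hconstI i).measurable)
    (fun τ => Real.rpow_nonneg (le_max_right _ _) _)
    (fun τ => Real.rpow_nonneg (abs_nonneg _) _)
    hΨr0
    (fun i τ => div_nonneg (hΦ0 _) (Real.rpow_nonneg (hv0 i) _))
    (antitone_weight hα (ξ u))
    ?_ ?_ ?_ ?_ ?_ ?_
  · exact Measurable.pow_const (by fun_prop) _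
  · exact Measurable.pow_const (by fun_prop) _
  · -- nonempty
    intro i l hl
    rcases (hv0 i).eq_or_lt with h0 | h0
    · refine ⟨R, ⟨hR, le_rfl⟩, 0, ?_, ?_⟩
      · have := hxC i
        rw [← h0] at this ⊢
        simpa using this
      · rw [← h0]; simp
    · -- continuity
      have hcont : Continuous (fun τ : ℝ => Φ (x i + (v i * τ) • u) ^ (1 / α) -
          l ^ (1 / α) * (v i * (1 + τ * ξ u))) := by
        refine Continuous.sub ?_ (by fun_prop)
        exact (hΦc.comp (by fun_prop)).rpow_const (fun _ => Or.inr hαinv.le)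
      have h0val : 0 < Φ (x i + (v i * 0) • u) ^ (1 / α) -
          l ^ (1 / α) * (v i * (1 + 0 * ξ u)) := by
        rw [mul_zero, zero_smul, add_zero, ← hv i, zero_mul, add_zero, mul_one]
        nlinarith [hllt l hl]
      have hΦpos : 0 < Φ (x i + (v i * 0) • u) := by
        rw [mul_zero, zero_smul, add_zero]
        rcases (hΦ0 (x i)).eq_or_lt with h | h
        · exfalso
          rw [hv i, ← h, Real.zero_rpow hαinv.ne'] at h0
          exact lt_irrefl _ h0
        · exact h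
      have hcontΦ : Continuous (fun τ : ℝ => Φ (x i + (v i * τ) • u)) := hΦc.comp (by fun_prop)
      have ev1 : ∀ᶠ τ in nhds (0:ℝ), 0 < Φ (x i + (v i * τ) • u) ^ (1 / α) -
          l ^ (1 / α) * (v i * (1 + τ * ξ u)) :=
        continuousAt_const.eventually_lt hcont.continuousAt h0val
      have ev2 : ∀ᶠ τ in nhds (0:ℝ), 0 < Φ (x i + (v i * τ) • u) :=
        continuousAt_const.eventually_lt hcontΦ.continuousAt hΦpos
      have ev3 := ((ev1.and ev2).filter_mono (nhdsWithin_le_nhds (s := Ioi (0:ℝ)))).and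
        (Ioc_mem_nhdsGT hR)
      obtain ⟨τ, ⟨h1, h2⟩, h3⟩ := ev3.exists
      exact ⟨τ, h3, _, hΦC _ h2, by linarith⟩
  · intro i l hl τ hτ
    exact hτ.1
  · -- down-closed
    rintro i l hl τ ⟨hτR, t, htC, ht⟩ τ' hτ'0 hτ'
    refine ⟨⟨hτ'0, hτ'.trans hτR.2⟩, ?_⟩
    have hτ0 : 0 < τ := hτR.1
    set r := τ' / τ with hr
    have hr0 : 0 ≤ r := by positivity
    have hr1 : r ≤ 1 := (div_le_one hτ0).2 hτ'
    have hrτ : r * τ = τ' := by rw [hr]; field_simp
    refine ⟨r * t + (1 - r) * v i, ?_, ?_⟩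
    · have := hC htC (hxC i) hr0 (sub_nonneg.2 hr1) (by ring)
      have heq : r • (x i + (v i * τ) • u, t) + (1 - r) • (x i, v i) =
          (x i + (v i * τ') • u, r * t + (1 - r) * v i) := by
        ext1
        · simp only [Prod.fst_add, Prod.smul_fst]
          rw [← hrτ]
          module
        · simp
      rwa [heq] at this
    · have h1 := mul_le_mul_of_nonneg_left ht hr0
      have h2 : l ^ (1 / α) * v i ≤ v i := by
        nlinarith [hllt l hl, hv0 i]
      have h3 := mul_le_mul_of_nonneg_left h2 (sub_nonneg.2 hr1)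
      rw [← hrτ]
      nlinarith
  · -- pairing
    intro l hl τ hτ
    choose hτR t htC ht using hτ
    refine ⟨∑ i, lam i * t i, ?_, ?_⟩
    · have := hC.sum_mem (t := Finset.univ) (w := lam) (z := fun i => (x i + (v i * τ i) • u, t i))
        (fun i _ => (hlam i).le) hlam1 (fun i _ => htC i)
      have heq : ∑ i, lam i • (x i + (v i * τ i) • u, t i) =
          (X + (s * ∑ i, lam i * v i / s * τ i) • u, ∑ i, lam i * t i) := by
        ext1
        · rw [Prod.fst_sum]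
          simp only [Prod.smul_fst, smul_add]
          rw [Finset.sum_add_distrib, hX, Finset.mul_sum, Finset.sum_smul]
          congr 1
          refine Finset.sum_congr rfl (fun i _ => ?_)
          rw [smul_smul]
          congr 1
          field_simp
        · rw [Prod.snd_sum]
          simp
      rwa [heq] at this
    · have h1 : ∑ i, lam i * (l ^ (1 / α) * (v i * (1 + τ i * ξ u))) ≤ ∑ i, lam i * t i :=
        Finset.sum_le_sum (fun i _ => mul_le_mul_of_nonneg_left (ht i) (hlam i).le)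
      refine le_trans (le_of_eq ?_) h1
      have h2 : s * (1 + (∑ i, lam i * v i / s * τ i) * ξ u) =
          ∑ i, lam i * (v i * (1 + τ i * ξ u)) := by
        have h3 : s * (1 + (∑ i, lam i * v i / s * τ i) * ξ u) =
          s + (∑ i, s * (lam i * v i / s * τ i)) * ξ u := by rw [← Finset.mul_sum]; ring
        rw [h3, Finset.sum_mul]
        nth_rewrite 1 [← hs]
        rw [← Finset.sum_add_distrib]
        refine Finset.sum_congr rfl (fun i _ => ?_)
        field_simp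
      rw [h2, Finset.mul_sum]
      refine Finset.sum_congr rfl (fun i _ => ?_)
      ring
  · -- T → F
    rintro l hl τ ⟨t, htC, ht⟩
    have ht0 := hC0 _ _ htC
    have hpos : 0 ≤ 1 + τ * ξ u := by
      have := hupX τ t htC
      by_contra hcon
      push Not at hcon
      nlinarith
    have h1 := hΨr τ t htC
    have h2 : (l ^ (1 / α) * (s * (1 + τ * ξ u))) ^ α ≤ t ^ α :=
      Real.rpow_le_rpow (mul_nonneg (hlpos l hl).le (mul_nonneg hspos.le hpos)) ht hα.le
    rw [Real.mul_rpow (hlpos l hl).le (mul_nonneg hspos.le hpos), hlpow l hl.1,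
      Real.mul_rpow hspos.le hpos] at h2
    simp only [max_eq_left hpos]
    have hsα : 0 < s ^ α := Real.rpow_pos_of_pos hspos _
    have h3 : s ^ α * (l * (1 + τ * ξ u) ^ α) ≤ s ^ α * Ψr τ := by linarith [h2.trans h1]
    exact le_of_mul_le_mul_left h3 hsα
  · -- G → S
    intro i l hl τ hτ hw hG
    refine ⟨hτ, ?_⟩
    rcases (hv0 i).eq_or_lt with h0 | h0
    · refine ⟨0, ?_, ?_⟩
      · have := hxC i
        rw [← h0] at this ⊢
        simpa using this
      · rw [← h0]; simp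
    · have hmax : 0 < 1 + τ * ξ u := by
        by_contra hcon
        push Not at hcon
        simp only [max_eq_right hcon, Real.zero_rpow hα.ne'] at hw
        exact lt_irrefl _ hw
      simp only [max_eq_left hmax.le] at hG hw
      have hviα : 0 < (v i) ^ α := Real.rpow_pos_of_pos h0 _
      rw [le_div_iff₀ hviα] at hG
      have hΦpos : 0 < Φ (x i + (v i * τ) • u) :=
        lt_of_lt_of_le (mul_pos (mul_pos hl.1 hw) hviα) hG
      refine ⟨_, hΦC _ hΦpos, ?_⟩
      have h1 := Real.rpow_le_rpow (mul_pos (mul_pos hl.1 hw) hviα).le hG hαinv.le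
      refine le_trans (le_of_eq ?_) h1
      rw [Real.mul_rpow (mul_pos hl.1 hw).le hviα.le, Real.mul_rpow hl.1.le hw.le,
        ← Real.rpow_mul hmax.le, ← Real.rpow_mul h0.le, mul_one_div, div_self hα.ne',
        Real.rpow_one, Real.rpow_one]
      ring

end ray

end Pool.Agent.TH276.Torsion
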