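import Mathlib
import Pool.Agent.TH276.Torsion.Pairing

set_option autoImplicit false

open MeasureTheory Set Metric
open scoped ENNReal

namespace Pool.Agent.TH276.Torsion

variable {E : Type*} [NormedAddCommGroup E] [NormedSpace ℝ E] [FiniteDimensional ℝ E]
  [MeasurableSpace E] [BorelSpace E] [Nontrivial E]


lemma ray_eval {α : ℝ} (g : E → ℝ) {u : E} (hu : ‖u‖ = 1) (R : ℝ) :
    (∫⁻ τ in Ioi (0:ℝ), ENNReal.ofReal (τ ^ (Module.finrank ℝ E - 1)) *
      (closedBall (0:E) R).indicator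
        (fun h => ENNReal.ofReal (g h * ‖h‖ ^ (-((Module.finrank ℝ E : ℝ) + α)))) (τ • u)) =
    ∫⁻ τ in Ioc 0 R, ENNReal.ofReal (g (τ • u) * |τ| ^ (-(1 + α))) := by
  have hn : 0 < Module.finrank ℝ E := Module.finrank_pos
  have h1 : ∀ τ ∈ Ioi (0:ℝ), ENNReal.ofReal (τ ^ (Module.finrank ℝ E - 1)) *
      (closedBall (0:E) R).indicator
        (fun h => ENNReal.ofReal (g h * ‖h‖ ^ (-((Module.finrank ℝ E : ℝ) + α)))) (τ • u) =
      (Iic R).indicator (fun τ => ENNReal.ofReal (g (τ • u) * |τ| ^ (-(1 + α)))) τ := by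
    intro τ hτ
    have hτ' : (0:ℝ) < τ := hτ
    have hnorm : ‖τ • u‖ = τ := by rw [norm_smul, hu, mul_one, Real.norm_eq_abs, abs_of_pos hτ']
    by_cases hR : τ ≤ R
    · rw [indicator_of_mem (show τ ∈ Iic R from hR),
        indicator_of_mem (by rw [mem_closedBall, dist_zero_right, hnorm]; exact hR), hnorm,
        ← ENNReal.ofReal_mul (pow_nonneg hτ'.le _), abs_of_pos hτ']
      congr 1
      have h2 : τ ^ (Module.finrank ℝ E - 1) * τ ^ (-((Module.finrank ℝ E : ℝ) + α)) = τ ^ (-(1 + α)) := by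
        rw [← Real.rpow_natCast, ← Real.rpow_add hτ']
        congr 1
        have : ((Module.finrank ℝ E - 1 : ℕ) : ℝ) = (Module.finrank ℝ E : ℝ) - 1 := by
          rw [Nat.cast_sub hn]; simp
        rw [this]; ring
      calc τ ^ (Module.finrank ℝ E - 1) * (g (τ • u) * τ ^ (-((Module.finrank ℝ E : ℝ) + α)))
          = g (τ • u) * (τ ^ (Module.finrank ℝ E - 1) * τ ^ (-((Module.finrank ℝ E : ℝ) + α))) := by ring
        _ = _ := by rw [h2]
    · rw [indicator_of_notMem (show τ ∉ Iic R from hR),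
        indicator_of_notMem (by rw [mem_closedBall, dist_zero_right, hnorm]; exact hR), mul_zero]
  rw [setLIntegral_congr_fun measurableSet_Ioi h1, lintegral_indicator measurableSet_Iic,
    Measure.restrict_restrict measurableSet_Iic]
  congr 2
  ext τ
  simp only [mem_inter_iff, mem_Iic, mem_Ioi, mem_Ioc]
  tauto

variable {α : ℝ} {C : Set (E × ℝ)} {Φ Ψ : E → ℝ} {ι : Type*} [Fintype ι] {lam v : ι → ℝ}
  {x : ι → E} {X : E} {s : ℝ} {ξ : E →L[ℝ] ℝ} {R : ℝ} (μ : Measure E) [μ.IsAddHaarMeasure]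

theorem pairing_integral (hα : 0 < α) (hC : Convex ℝ C) (hΦc : Continuous Φ)
    (hΦ0 : ∀ y, 0 ≤ Φ y)
    (hΦC : ∀ y, 0 < Φ y → (y, Φ y ^ (1 / α)) ∈ C) (hΨ0 : ∀ y, 0 ≤ Ψ y)
    (hΨm : Measurable Ψ)
    (hC0 : ∀ y t, (y, t) ∈ C → 0 ≤ t)
    (hCΨ : ∀ y t, (y, t) ∈ C → t ^ α ≤ Ψ y)
    (hlam : ∀ i, 0 < lam i) (hlam1 : ∑ i, lam i = 1)
    (hv : ∀ i, v i = Φ (x i) ^ (1 / α)) (hxC : ∀ i, (x i, v i) ∈ C)
    (hX : ∑ i, lam i • x i = X) (hs : ∑ i, lam i * v i = s) (hspos : 0 < s)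
    (hξ : ∀ y t, (y, t) ∈ C → t ≤ s + ξ (y - X)) (hR : 0 < R) :
    (∫⁻ h in closedBall (0:E) R, ENNReal.ofReal
      (((max (1 + ξ h) 0) ^ α - Ψ (X + s • h) / s ^ α) * ‖h‖ ^ (-((Module.finrank ℝ E : ℝ) + α))) ∂μ) ≤
    ∑ i, ENNReal.ofReal (lam i * v i / s) * ∫⁻ h in closedBall (0:E) R, ENNReal.ofReal
      (((max (1 + ξ h) 0) ^ α - Φ (x i + v i • h) / (v i) ^ α) *
        ‖h‖ ^ (-((Module.finrank ℝ E : ℝ) + α))) ∂μ := by
  have hmF : Measurable (fun h : E => ENNReal.ofReal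
      (((max (1 + ξ h) 0) ^ α - Ψ (X + s • h) / s ^ α) * ‖h‖ ^ (-((Module.finrank ℝ E : ℝ) + α)))) := by
    refine Measurable.ennreal_ofReal ?_
    refine Measurable.mul ?_ (measurable_norm.pow_const _)
    refine Measurable.sub (Measurable.pow_const (by fun_prop) _) ?_
    exact (hΨm.comp (by fun_prop)).div_const _
  have hmG : ∀ i, Measurable (fun h : E => ENNReal.ofReal
      (((max (1 + ξ h) 0) ^ α - Φ (x i + v i • h) / (v i) ^ α) *
        ‖h‖ ^ (-((Module.finrank ℝ E : ℝ) + α)))) := by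
    intro i
    refine Measurable.ennreal_ofReal ?_
    refine Measurable.mul ?_ (measurable_norm.pow_const _)
    refine Measurable.sub (Measurable.pow_const (by fun_prop) _) ?_
    exact (hΦc.measurable.comp (by fun_prop)).div_const _
  have hball : MeasurableSet (closedBall (0:E) R) := isClosed_closedBall.measurableSet
  rw [← lintegral_indicator hball]
  have hrw : ∀ i, (∫⁻ h in closedBall (0:E) R, ENNReal.ofReal
      (((max (1 + ξ h) 0) ^ α - Φ (x i + v i • h) / (v i) ^ α) *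
        ‖h‖ ^ (-((Module.finrank ℝ E : ℝ) + α))) ∂μ) =
      ∫⁻ h, (closedBall (0:E) R).indicator (fun h => ENNReal.ofReal
      (((max (1 + ξ h) 0) ^ α - Φ (x i + v i • h) / (v i) ^ α) *
        ‖h‖ ^ (-((Module.finrank ℝ E : ℝ) + α)))) h ∂μ := fun i => (lintegral_indicator hball _).symm
  simp only [hrw]
  refine lintegral_le_of_rays μ (hmF.indicator hball) (fun i => (hmG i).indicator hball) ?_
  intro u hu
  rw [ray_eval (fun h => (max (1 + ξ h) 0) ^ α - Ψ (X + s • h) / s ^ α) hu R]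
  have hG : ∀ i, (∫⁻ τ in Ioi (0:ℝ), ENNReal.ofReal (τ ^ (Module.finrank ℝ E - 1)) *
      (closedBall (0:E) R).indicator (fun h => ENNReal.ofReal
      (((max (1 + ξ h) 0) ^ α - Φ (x i + v i • h) / (v i) ^ α) *
        ‖h‖ ^ (-((Module.finrank ℝ E : ℝ) + α)))) (τ • u)) = _ := fun i =>
    ray_eval (fun h => (max (1 + ξ h) 0) ^ α - Φ (x i + v i • h) / (v i) ^ α) hu R
  simp only [hG, map_smul, smul_eq_mul, smul_smul]
  have hsα : 0 < s ^ α := Real.rpow_pos_of_pos hspos _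
  refine ray_ineq hα hC hΦc hΦ0 hΦC (Ψr := fun τ => Ψ (X + (s * τ) • u) / s ^ α)
    (fun τ => div_nonneg (hΨ0 _) hsα.le)
    ((hΨm.comp (by fun_prop)).div_const _) hC0 hlam hlam1 hv hxC hX hs hspos hξ hR u ?_
  intro τ t htC
  rw [mul_div_cancel₀ _ hsα.ne']
  exact hCΨ _ _ htC

end Pool.Agent.TH276.Torsion
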