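import Mathlib
import Pool.Agent.TH276.Torsion.Space

set_option autoImplicit false

open MeasureTheory Set Metric Filter Topology
open scoped ENNReal

namespace Pool.Agent.TH276.Torsion

variable {E : Type*} [NormedAddCommGroup E] [NormedSpace ℝ E] [FiniteDimensional ℝ E]
  [MeasurableSpace E] [BorelSpace E] [Nontrivial E] (μ : Measure E) [μ.IsAddHaarMeasure]


/-- exterior of a closed ball -/
def Ext (E : Type*) [NormedAddCommGroup E] (ε : ℝ) : Set E := {h : E | ε < ‖h‖}

lemma measurableSet_Ext (ε : ℝ) : MeasurableSet (Ext E ε) :=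
  measurableSet_lt measurable_const measurable_norm

lemma kernel_integrableOn {α : ℝ} (hα : 0 < α) {ε : ℝ} (hε : 0 < ε) :
    IntegrableOn (fun h : E => ‖h‖ ^ (-((Module.finrank ℝ E : ℝ) + α))) (Ext E ε) μ := by
  have h1 : Integrable (fun h : E => ((1 + ε) / ε) ^ ((Module.finrank ℝ E : ℝ) + α) *
      (1 + ‖h‖) ^ (-((Module.finrank ℝ E : ℝ) + α))) μ :=
    (integrable_one_add_norm (by linarith)).const_mul _
  refine Integrable.mono' h1.integrableOn
    (measurable_norm.pow_const _).aestronglyMeasurable ?_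
  refine (ae_restrict_iff' (measurableSet_Ext ε)).2 (ae_of_all _ fun h hh => ?_)
  have hh' : ε < ‖h‖ := hh
  have hpos : 0 < ‖h‖ := hε.trans hh'
  have hr : 0 < (Module.finrank ℝ E : ℝ) + α := by positivity
  rw [Real.norm_eq_abs, abs_of_nonneg (Real.rpow_nonneg (norm_nonneg _) _),
    Real.rpow_neg hpos.le, Real.rpow_neg (by positivity), ← div_eq_mul_inv,
    ← Real.div_rpow (by positivity) (by positivity), ← Real.inv_rpow hpos.le]
  refine Real.rpow_le_rpow (by positivity) ?_ hr.le
  rw [div_div, le_div_iff₀ (by positivity), inv_mul_eq_div, div_le_iff₀ hpos]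
  nlinarith

/-- Fatou on punctured balls. -/
lemma lintegral_le_of_tendsto {f : E → ℝ} {B : Set E} (hB : MeasurableSet B)
    (hfm : Measurable f) (hf0 : ∀ h, 0 ≤ f h)
    (hf00 : f 0 = 0) (hfi : ∀ ε > 0, IntegrableOn f (Ext E ε ∩ B) μ) {L : ℝ}
    (hL : Tendsto (fun ε => ∫ h in Ext E ε ∩ B, f h ∂μ) (𝓝[>] 0) (𝓝 L)) :
    ∫⁻ h in B, ENNReal.ofReal (f h) ∂μ ≤ ENNReal.ofReal L := by
  have hpt : ∀ h : E, liminf (fun ε : ℝ => (Ext E ε).indicator
      (fun h => ENNReal.ofReal (f h)) h) (𝓝[>] 0) = ENNReal.ofReal (f h) := by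
    intro h
    refine Tendsto.liminf_eq ?_
    by_cases h0 : h = 0
    · subst h0
      rw [hf00, ENNReal.ofReal_zero]
      refine tendsto_const_nhds.congr (fun ε => ?_)
      by_cases hm : (0:E) ∈ Ext E ε
      · rw [indicator_of_mem hm, hf00, ENNReal.ofReal_zero]
      · rw [indicator_of_notMem hm]
    · have hpos : 0 < ‖h‖ := norm_pos_iff.2 h0
      refine tendsto_const_nhds.congr' ?_
      filter_upwards [Ioo_mem_nhdsGT hpos] with ε hε
      rw [indicator_of_mem (show h ∈ Ext E ε from hε.2)]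
  calc ∫⁻ h in B, ENNReal.ofReal (f h) ∂μ
      = ∫⁻ h in B, liminf (fun ε : ℝ => (Ext E ε).indicator
          (fun h => ENNReal.ofReal (f h)) h) (𝓝[>] 0) ∂μ := by simp only [hpt]
    _ ≤ liminf (fun ε : ℝ => ∫⁻ h in B, (Ext E ε).indicator
          (fun h => ENNReal.ofReal (f h)) h ∂μ) (𝓝[>] 0) :=
        lintegral_liminf_le (fun ε => hfm.ennreal_ofReal.indicator (measurableSet_Ext ε))
    _ = ENNReal.ofReal L := by
        refine Tendsto.liminf_eq ?_
        refine ((ENNReal.continuous_ofReal.tendsto L).comp hL).congr' ?_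
        filter_upwards [self_mem_nhdsWithin] with ε hε
        rw [lintegral_indicator (measurableSet_Ext ε),
          Measure.restrict_restrict (measurableSet_Ext ε)]
        exact ofReal_integral_eq_lintegral_ofReal (hfi ε hε) (ae_of_all _ hf0)

/-- Absolutely convergent case: punctured integrals converge. -/
lemma tendsto_punctured {f : E → ℝ} {B : Set E} (hf00 : f 0 = 0)
    (hfi : IntegrableOn f B μ) :
    Tendsto (fun ε => ∫ h in Ext E ε ∩ B, f h ∂μ) (𝓝[>] 0) (𝓝 (∫ h in B, f h ∂μ)) := by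
  have h1 : ∀ ε : ℝ, ∫ h in Ext E ε ∩ B, f h ∂μ =
      ∫ h in B, (Ext E ε).indicator f h ∂μ := by
    intro ε
    rw [integral_indicator (measurableSet_Ext ε), Measure.restrict_restrict (measurableSet_Ext ε)]
  simp only [h1]
  refine tendsto_integral_filter_of_dominated_convergence (fun h => ‖f h‖)
    (Eventually.of_forall fun ε => hfi.aestronglyMeasurable.indicator (measurableSet_Ext ε))
    (Eventually.of_forall fun ε => ae_of_all _ fun h => norm_indicator_le_norm_self _ _)
    hfi.norm (ae_of_all _ fun h => ?_)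
  by_cases h0 : h = 0
  · subst h0
    rw [hf00]
    refine tendsto_const_nhds.congr (fun ε => ?_)
    by_cases hm : (0:E) ∈ Ext E ε
    · rw [indicator_of_mem hm, hf00]
    · rw [indicator_of_notMem hm]
  · have hpos : 0 < ‖h‖ := norm_pos_iff.2 h0
    refine tendsto_const_nhds.congr' ?_
    filter_upwards [Ioo_mem_nhdsGT hpos] with ε hε
    rw [indicator_of_mem (show h ∈ Ext E ε from hε.2)]

/-- Odd integrands over symmetric sets. -/
lemma integral_odd {g : E → ℝ} {A : Set E} (hA : MeasurableSet A) (hAs : ∀ h, -h ∈ A ↔ h ∈ A)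
    (hg : ∀ h, g (-h) = - g h) : ∫ h in A, g h ∂μ = 0 := by
  have h1 : ∫ h in A, g h ∂μ = ∫ h, A.indicator g h ∂μ := (integral_indicator hA).symm
  have h2 : ∫ h, A.indicator g h ∂μ = ∫ h, A.indicator g (-h) ∂μ :=
    (integral_neg_eq_self _ μ).symm
  have h3 : ∀ h, A.indicator g (-h) = - A.indicator g h := by
    intro h
    by_cases hm : h ∈ A
    · rw [indicator_of_mem hm, indicator_of_mem ((hAs h).2 hm), hg]
    · rw [indicator_of_notMem hm, indicator_of_notMem (fun hc => hm ((hAs h).1 hc)), neg_zero]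
  have h4 : ∫ h, A.indicator g (-h) ∂μ = - ∫ h, A.indicator g h ∂μ := by
    rw [← integral_neg]
    exact integral_congr_ae (ae_of_all _ h3)
  rw [h1]
  linarith [h2.trans h4]

/-- The majorant integral converges for `α < 1`. -/
lemma majorant_tendsto_lt {α : ℝ} (hα0 : 0 < α) (hα1 : α < 1) (ξ : E →L[ℝ] ℝ) (R : ℝ) :
    ∃ M : ℝ, Tendsto (fun ε => ∫ h in Ext E ε ∩ closedBall (0:E) R,
      ((max (1 + ξ h) 0) ^ α - 1) * ‖h‖ ^ (-((Module.finrank ℝ E : ℝ) + α)) ∂μ) (𝓝[>] 0) (𝓝 M) := by
  have hn : 0 < Module.finrank ℝ E := Module.finrank_pos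
  have hr : (0:ℝ) < (Module.finrank ℝ E : ℝ) + α := by positivity
  refine ⟨_, tendsto_punctured μ ?_ ?_⟩
  · rw [norm_zero, Real.zero_rpow (by linarith), mul_zero]
  · set r := max R 0 + 1 with hrdef
    have hrpos : 0 < r := by positivity
    have hsub : closedBall (0:E) R ⊆ ball 0 r :=
      closedBall_subset_ball (by rw [hrdef]; linarith [le_max_left R 0])
    have hbase : IntegrableOn (fun h : E => (fun y : ℝ => y ^ (1 - ((Module.finrank ℝ E : ℝ) + α))) ‖h‖)
        (ball (0:E) r) μ := by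
      refine (integrableOn_fun_norm_addHaar μ
        (f := fun y : ℝ => y ^ (1 - ((Module.finrank ℝ E : ℝ) + α)))).2 ?_
      have h1 : EqOn (fun y : ℝ => y ^ (Module.finrank ℝ E - 1) • y ^ (1 - ((Module.finrank ℝ E : ℝ) + α)))
          (fun y : ℝ => y ^ (-α)) (Ioo 0 r) := by
        intro y hy
        simp only [smul_eq_mul]
        rw [← Real.rpow_natCast, ← Real.rpow_add hy.1, Nat.cast_sub hn]
        congr 1
        push_cast
        ring
      rw [integrableOn_congr_fun h1 measurableSet_Ioo]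
      exact (intervalIntegral.integrableOn_Ioo_rpow_iff hrpos).2 (by linarith)
    refine Integrable.mono' ((hbase.mono_set hsub).const_mul ‖ξ‖)
      (Measurable.aestronglyMeasurable ?_) (ae_of_all _ fun h => ?_)
    · refine Measurable.mul ?_ (measurable_norm.pow_const _)
      exact (Measurable.pow_const (by fun_prop) _).sub_const _
    · by_cases h0 : h = 0
      · subst h0
        simp only [norm_zero]
        rw [Real.zero_rpow (by linarith : -((Module.finrank ℝ E : ℝ) + α) ≠ 0), mul_zero, norm_zero]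
        exact mul_nonneg (norm_nonneg _) (Real.rpow_nonneg le_rfl _)
      · have hpos : 0 < ‖h‖ := norm_pos_iff.2 h0
        rw [norm_mul, Real.norm_eq_abs (‖h‖ ^ _), abs_of_nonneg (Real.rpow_nonneg (norm_nonneg _) _)]
        have h1 : ‖(max (1 + ξ h) 0) ^ α - 1‖ ≤ ‖ξ‖ * ‖h‖ := by
          refine le_trans ?_ (ξ.le_opNorm h)
          rw [Real.norm_eq_abs, Real.norm_eq_abs]
          set z := ξ h with hz
          rcases le_total 1 (max (1 + z) 0) with h2 | h2
          · have h3 : (max (1 + z) 0) ^ α ≤ max (1 + z) 0 := by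
              calc (max (1 + z) 0) ^ α ≤ (max (1 + z) 0) ^ (1:ℝ) :=
                    Real.rpow_le_rpow_of_exponent_le h2 hα1.le
                _ = _ := Real.rpow_one _
            have h4 : 1 ≤ (max (1 + z) 0) ^ α := Real.one_le_rpow h2 hα0.le
            have h5 : 0 ≤ z := by
              rcases le_max_iff.1 h2 with h | h
              · linarith
              · linarith
            rw [abs_of_nonneg (by linarith), abs_of_nonneg h5]
            rw [max_eq_left (by linarith)] at h3 h4 ⊢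
            linarith
          · have h3 : max (1 + z) 0 ≤ (max (1 + z) 0) ^ α := by
              rcases (le_max_right (1 + z) 0).eq_or_lt with h | h
              · rw [← h]; rw [Real.zero_rpow hα0.ne']
              · calc max (1 + z) 0 = (max (1 + z) 0) ^ (1:ℝ) := (Real.rpow_one _).symm
                  _ ≤ _ := Real.rpow_le_rpow_of_exponent_ge h h2 hα1.le
            have h4 : (max (1 + z) 0) ^ α ≤ 1 := Real.rpow_le_one (le_max_right _ _) h2 hα0.le
            have h5 : z ≤ 0 := by linarith [le_max_left (1 + z) 0]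
            rw [abs_of_nonpos (by linarith), abs_of_nonpos h5]
            linarith [le_max_left (1 + z) 0]
        calc ‖(max (1 + ξ h) 0) ^ α - 1‖ * ‖h‖ ^ (-((Module.finrank ℝ E : ℝ) + α))
            ≤ (‖ξ‖ * ‖h‖) * ‖h‖ ^ (-((Module.finrank ℝ E : ℝ) + α)) :=
              mul_le_mul_of_nonneg_right h1 (Real.rpow_nonneg (norm_nonneg _) _)
          _ = ‖ξ‖ * ‖h‖ ^ (1 - ((Module.finrank ℝ E : ℝ) + α)) := by
              rw [sub_eq_add_neg, Real.rpow_add hpos, Real.rpow_one]; ring

/-- The majorant integral converges for `α = 1`. -/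
lemma majorant_tendsto_one (ξ : E →L[ℝ] ℝ) {R : ℝ} (hR : 0 < R) :
    ∃ M : ℝ, Tendsto (fun ε => ∫ h in Ext E ε ∩ closedBall (0:E) R,
      ((max (1 + ξ h) 0) ^ (1:ℝ) - 1) * ‖h‖ ^ (-((Module.finrank ℝ E : ℝ) + 1)) ∂μ) (𝓝[>] 0) (𝓝 M) := by
  set δ := min R (1 / (‖ξ‖ + 1)) with hδ
  have hδpos : 0 < δ := lt_min hR (by positivity)
  have hball : MeasurableSet (closedBall (0:E) R) := isClosed_closedBall.measurableSet
  set f : E → ℝ := fun h => ((max (1 + ξ h) 0) ^ (1:ℝ) - 1) * ‖h‖ ^ (-((Module.finrank ℝ E : ℝ) + 1)) with hf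
  have hfint : ∀ ε > 0, IntegrableOn f (Ext E ε ∩ closedBall (0:E) R) μ := by
    intro ε hε
    have hk := (kernel_integrableOn μ (α := 1) one_pos hε).mono_set
      (inter_subset_left (t := closedBall (0:E) R))
    refine Integrable.mono' (hk.const_mul (‖ξ‖ * R))
      (Measurable.aestronglyMeasurable ?_) ?_
    · refine Measurable.mul ?_ (measurable_norm.pow_const _)
      exact (Measurable.pow_const (by fun_prop) _).sub_const _
    · refine (ae_restrict_iff' ((measurableSet_Ext ε).inter hball)).2 (ae_of_all _ fun h hh => ?_)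
      have hhR : ‖h‖ ≤ R := by simpa using hh.2
      rw [hf, norm_mul, Real.norm_eq_abs (‖h‖ ^ _),
        abs_of_nonneg (Real.rpow_nonneg (norm_nonneg _) _)]
      refine mul_le_mul_of_nonneg_right ?_ (Real.rpow_nonneg (norm_nonneg _) _)
      rw [Real.rpow_one]
      have h1 : |ξ h| ≤ ‖ξ‖ * R := (ξ.le_opNorm h).trans
        (mul_le_mul_of_nonneg_left hhR (norm_nonneg _))
      rw [Real.norm_eq_abs]
      refine le_trans ?_ h1
      rcases le_total 0 (1 + ξ h) with h2 | h2
      · rw [max_eq_left h2]; simp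
      · rw [max_eq_right h2, abs_of_nonpos (by linarith), abs_of_nonpos (by linarith)]
        linarith
  refine ⟨∫ h in Ext E δ ∩ closedBall (0:E) R, f h ∂μ, tendsto_const_nhds.congr' ?_⟩
  filter_upwards [Ioo_mem_nhdsGT hδpos] with ε hε
  have hset : Ext E ε ∩ closedBall (0:E) R =
      (Ext E δ ∩ closedBall (0:E) R) ∪ (Ext E ε ∩ closedBall (0:E) δ) := by
    ext h
    simp only [Ext, mem_inter_iff, mem_ofPred_eq, mem_closedBall, dist_zero_right, mem_union]
    constructor
    · rintro ⟨h1, h2⟩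
      rcases lt_or_ge δ ‖h‖ with h3 | h3
      · exact Or.inl ⟨h3, h2⟩
      · exact Or.inr ⟨h1, h3⟩
    · rintro (⟨h1, h2⟩ | ⟨h1, h2⟩)
      · exact ⟨hε.2.trans h1, h2⟩
      · exact ⟨h1, h2.trans (min_le_left _ _)⟩
  have hdisj : Disjoint (Ext E δ ∩ closedBall (0:E) R) (Ext E ε ∩ closedBall (0:E) δ) := by
    rw [Set.disjoint_left]
    rintro h ⟨h1, _⟩ ⟨_, h2⟩
    have h1' : δ < ‖h‖ := h1
    have h2' : ‖h‖ ≤ δ := by simpa using h2
    linarith
  have hsub : Ext E ε ∩ closedBall (0:E) δ ⊆ Ext E ε ∩ closedBall (0:E) R :=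
    inter_subset_inter_right _ (closedBall_subset_closedBall (min_le_left _ _))
  have hzero : ∫ h in Ext E ε ∩ closedBall (0:E) δ, f h ∂μ = 0 := by
    have hmeas : MeasurableSet (Ext E ε ∩ closedBall (0:E) δ) :=
      (measurableSet_Ext ε).inter isClosed_closedBall.measurableSet
    have hcongr : ∫ h in Ext E ε ∩ closedBall (0:E) δ, f h ∂μ =
        ∫ h in Ext E ε ∩ closedBall (0:E) δ, ξ h * ‖h‖ ^ (-((Module.finrank ℝ E : ℝ) + 1)) ∂μ := by
      refine setIntegral_congr_fun hmeas (fun h hh => ?_)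
      have hhδ : ‖h‖ ≤ δ := by simpa using hh.2
      have h1 : |ξ h| ≤ 1 := by
        refine (ξ.le_opNorm h).trans ?_
        have h2 : ‖h‖ ≤ 1 / (‖ξ‖ + 1) := hhδ.trans (min_le_right _ _)
        calc ‖ξ‖ * ‖h‖ ≤ ‖ξ‖ * (1 / (‖ξ‖ + 1)) := mul_le_mul_of_nonneg_left h2 (norm_nonneg _)
          _ ≤ 1 := by
            rw [mul_one_div, div_le_one (by positivity)]; linarith
      have h3 : 0 ≤ 1 + ξ h := by linarith [(abs_le.1 h1).1]
      simp only [hf]
      rw [max_eq_left h3, Real.rpow_one]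
      ring
    rw [hcongr]
    refine integral_odd μ hmeas (fun h => ?_) (fun h => ?_)
    · simp [Ext]
    · rw [map_neg, norm_neg]; ring
  rw [hset, setIntegral_union hdisj ((measurableSet_Ext ε).inter
    isClosed_closedBall.measurableSet) (hfint δ hδpos) ((hfint ε hε.1).mono_set hsub), hzero,
    add_zero]

end Pool.Agent.TH276.Torsion
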