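import Mathlib
import Pool.Agent.TH276.Torsion.Limits
import Pool.Agent.TH276.Torsion.Hull

set_option autoImplicit false

open MeasureTheory Set Metric Filter Topology
open scoped ENNReal

namespace Pool.Agent.TH276.Torsion

variable {E : Type*} [NormedAddCommGroup E] [NormedSpace ℝ E] [FiniteDimensional ℝ E]
  [MeasurableSpace E] [BorelSpace E] [Nontrivial E] (μ : Measure E) [μ.IsAddHaarMeasure]


lemma scale_integral {φ : E → ℝ} {α : ℝ} (x : E) {v : ℝ} (hv : 0 < v) (ε : ℝ) :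
    ∫ h in Ext E ε, (φ x - φ (x + v • h)) * ‖h‖ ^ (-((Module.finrank ℝ E : ℝ) + α)) ∂μ =
      v ^ α * ∫ y in {y : E | v * ε < ‖x - y‖},
        (φ x - φ y) / ‖x - y‖ ^ ((Module.finrank ℝ E : ℝ) + α) ∂μ := by
  set g : E → ℝ := (Ext E (v * ε)).indicator
    (fun z => (φ x - φ (x + z)) * ‖z‖ ^ (-((Module.finrank ℝ E : ℝ) + α))) with hg
  have hset : MeasurableSet {y : E | v * ε < ‖x - y‖} :=
    measurableSet_lt measurable_const (by fun_prop)
  have h1 : ∫ y in {y : E | v * ε < ‖x - y‖},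
        (φ x - φ y) / ‖x - y‖ ^ ((Module.finrank ℝ E : ℝ) + α) ∂μ = ∫ z, g z ∂μ := by
    rw [← integral_indicator hset, ← integral_add_left_eq_self _ x]
    refine integral_congr_ae (ae_of_all _ fun z => ?_)
    have hz : ‖x - (x + z)‖ = ‖z‖ := by rw [sub_add_cancel_left, norm_neg]
    by_cases hm : v * ε < ‖z‖
    · simp only [hg]
      rw [indicator_of_mem (show x + z ∈ {y : E | v * ε < ‖x - y‖} by
        rw [mem_ofPred_eq, hz]; exact hm),
        indicator_of_mem (show z ∈ Ext E (v * ε) from hm), hz, Real.rpow_neg (norm_nonneg _),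
        div_eq_mul_inv]
    · simp only [hg]
      rw [indicator_of_notMem (show x + z ∉ {y : E | v * ε < ‖x - y‖} by
        rw [mem_ofPred_eq, hz]; exact hm),
        indicator_of_notMem (show z ∉ Ext E (v * ε) from hm)]
  have h2 := Measure.integral_comp_smul μ g v
  have h3 : ∫ h, g (v • h) ∂μ = v ^ (-((Module.finrank ℝ E : ℝ) + α)) *
      ∫ h in Ext E ε, (φ x - φ (x + v • h)) * ‖h‖ ^ (-((Module.finrank ℝ E : ℝ) + α)) ∂μ := by
    rw [← integral_indicator (measurableSet_Ext ε), ← integral_const_mul]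
    refine integral_congr_ae (ae_of_all _ fun h => ?_)
    have hz : ‖v • h‖ = v * ‖h‖ := by rw [norm_smul, Real.norm_eq_abs, abs_of_pos hv]
    by_cases hm : ε < ‖h‖
    · simp only [hg]
      rw [indicator_of_mem (show h ∈ Ext E ε from hm),
        indicator_of_mem (show v • h ∈ Ext E (v * ε) by
          show v * ε < ‖v • h‖
          rw [hz]; exact mul_lt_mul_of_pos_left hm hv), hz,
        Real.mul_rpow hv.le (norm_nonneg _)]
      ring
    · simp only [hg]
      rw [indicator_of_notMem (show h ∉ Ext E ε from hm),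
        indicator_of_notMem (show v • h ∉ Ext E (v * ε) by
          show ¬ (v * ε < ‖v • h‖)
          rw [hz, mul_lt_mul_iff_right₀ hv]; exact hm), mul_zero]
  rw [h3, smul_eq_mul, abs_of_pos (by positivity)] at h2
  rw [h1]
  have h4 : v ^ (-((Module.finrank ℝ E : ℝ) + α)) ≠ 0 := (Real.rpow_pos_of_pos hv _).ne'
  have h5 : (v ^ Module.finrank ℝ E)⁻¹ = v ^ (-((Module.finrank ℝ E : ℝ) + α)) * v ^ α := by
    rw [← Real.rpow_add hv, ← Real.rpow_natCast, ← Real.rpow_neg hv.le]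
    congr 1
    ring
  rw [h5, mul_assoc] at h2
  exact mul_left_cancel₀ h4 h2

/-- The hypotheses of the torsion problem. -/
structure TorsionData (α : ℝ) (D : Set E) (φ : E → ℝ) : Prop where
  hD : IsOpen D
  hDc : Convex ℝ D
  hDb : Bornology.IsBounded D
  hφ : Continuous φ
  hφ0 : ∀ x, x ∉ D → φ x = 0
  hpv : ∀ x ∈ D, Tendsto (fun ε : ℝ => ∫ y in {y : E | ε < ‖x - y‖},
      (φ x - φ y) / ‖x - y‖ ^ ((Module.finrank ℝ E : ℝ) + α) ∂μ) (𝓝[>] 0) (𝓝 1)

variable {μ} {α : ℝ} {D : Set E} {φ : E → ℝ}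

lemma TorsionData.compact (H : TorsionData μ α D φ) : IsCompact (closure D) :=
  Metric.isCompact_of_isClosed_isBounded isClosed_closure H.hDb.closure

/-- Strict positivity inside `D`. -/
lemma TorsionData.pos (H : TorsionData μ α D φ) : ∀ x ∈ D, 0 < φ x := by
  intro x0 hx0
  by_contra hcon
  push Not at hcon
  obtain ⟨z, hz, hmin⟩ := H.compact.exists_isMinOn ⟨x0, subset_closure hx0⟩ H.hφ.continuousOn
  -- a global minimum point inside `D`
  obtain ⟨x, hxD, hx⟩ : ∃ x ∈ D, ∀ y, φ x ≤ φ y := by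
    have hzx0 : φ z ≤ φ x0 := hmin (subset_closure hx0)
    by_cases hzD : z ∈ D
    · refine ⟨z, hzD, fun y => ?_⟩
      by_cases hy : y ∈ D
      · exact hmin (subset_closure hy)
      · rw [H.hφ0 y hy]; linarith
    · have hz0 : φ z = 0 := H.hφ0 z hzD
      refine ⟨x0, hx0, fun y => ?_⟩
      by_cases hy : y ∈ D
      · have : φ z ≤ φ y := hmin (subset_closure hy)
        linarith
      · rw [H.hφ0 y hy]; linarith
  have hle : (1:ℝ) ≤ 0 := by
    refine le_of_tendsto (H.hpv x hxD) (Eventually.of_forall fun ε => ?_)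
    refine integral_nonpos fun y => ?_
    exact div_nonpos_of_nonpos_of_nonneg (by linarith [hx y]) (Real.rpow_nonneg (norm_nonneg _) _)
  linarith

lemma TorsionData.nonneg (H : TorsionData μ α D φ) (y : E) : 0 ≤ φ y := by
  by_cases hy : y ∈ D
  · exact (H.pos y hy).le
  · rw [H.hφ0 y hy]

lemma TorsionData.mem_of_pos (H : TorsionData μ α D φ) {y : E} (hy : 0 < φ y) : y ∈ D := by
  by_contra hcon
  rw [H.hφ0 y hcon] at hy
  exact lt_irrefl _ hy

lemma TorsionData.bdd (H : TorsionData μ α D φ) : ∃ B : ℝ, 0 < B ∧ ∀ y, φ y ≤ B := by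
  obtain ⟨B, hB⟩ := H.compact.bddAbove_image H.hφ.continuousOn
  refine ⟨max B 1, by positivity, fun y => ?_⟩
  by_cases hy : y ∈ D
  · exact (hB ⟨y, subset_closure hy, rfl⟩).trans (le_max_left _ _)
  · rw [H.hφ0 y hy]; positivity

lemma TorsionData.vanish (H : TorsionData μ α D φ) :
    ∃ B : ℝ, 0 < B ∧ (∀ y ∈ D, ‖y‖ ≤ B) ∧ ∀ y, B < ‖y‖ → φ y = 0 := by
  obtain ⟨B, hB⟩ := H.hDb.exists_norm_le
  refine ⟨max B 1, by positivity, fun y hy => (hB y hy).trans (le_max_left _ _), fun y hy => ?_⟩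
  refine H.hφ0 y fun hyD => ?_
  have := (hB y hyD).trans (le_max_left B 1)
  linarith

/-- If `x ∈ D` then `φ (x + v • h)` vanishes for large `h`. -/
lemma vanish_ray {B : ℝ} (hB : 0 < B) (hDB : ∀ y ∈ D, ‖y‖ ≤ B) (hφB : ∀ y, B < ‖y‖ → φ y = 0)
    {x : E} (hx : ‖x‖ ≤ B) {v : ℝ} (hv : 0 < v) {R : ℝ} (hR : 2 * B / v ≤ R) {h : E}
    (hh : R < ‖h‖) : φ (x + v • h) = 0 := by
  apply hφB
  have h1 : 2 * B < v * ‖h‖ := by
    rw [div_le_iff₀ hv] at hR
    nlinarith
  have h2 : ‖v • h‖ = v * ‖h‖ := by rw [norm_smul, Real.norm_eq_abs, abs_of_pos hv]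
  have h3 : ‖v • h‖ ≤ ‖x + v • h‖ + ‖x‖ := by
    have := norm_sub_le (x + v • h) x
    rwa [add_sub_cancel_left] at this
  linarith

/-- integrability of the difference quotient away from the pole -/
lemma TorsionData.integrableOn (H : TorsionData μ α D φ) (hα : 0 < α) (x : E) (v : ℝ) {ε : ℝ}
    (hε : 0 < ε) :
    IntegrableOn (fun h => (φ x - φ (x + v • h)) * ‖h‖ ^ (-((Module.finrank ℝ E : ℝ) + α))) (Ext E ε) μ := by
  obtain ⟨B, hB, hφB⟩ := H.bdd
  refine Integrable.mono' ((kernel_integrableOn μ hα hε).const_mul B)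
    (Measurable.aestronglyMeasurable ?_) (ae_of_all _ fun h => ?_)
  · refine Measurable.mul ?_ (measurable_norm.pow_const _)
    exact measurable_const.sub (H.hφ.measurable.comp (by fun_prop))
  · rw [norm_mul, Real.norm_eq_abs (‖h‖ ^ _), abs_of_nonneg (Real.rpow_nonneg (norm_nonneg _) _)]
    refine mul_le_mul_of_nonneg_right ?_ (Real.rpow_nonneg (norm_nonneg _) _)
    rw [Real.norm_eq_abs, abs_le]
    have h1 := H.nonneg x
    have h2 := H.nonneg (x + v • h)
    have h3 := hφB x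
    have h4 := hφB (x + v • h)
    constructor <;> linarith

/-- The rescaled principal value at a point of `D`, cut at radius `R`. -/
lemma TorsionData.tendsto_cut (H : TorsionData μ α D φ) (hα : 0 < α) {x : E} (hx : x ∈ D) {v : ℝ}
    (hv : 0 < v) {R : ℝ} (hR : 0 < R) (hvan : ∀ h : E, R < ‖h‖ → φ (x + v • h) = 0) :
    Tendsto (fun ε => ∫ h in Ext E ε ∩ closedBall (0:E) R,
      (φ x - φ (x + v • h)) * ‖h‖ ^ (-((Module.finrank ℝ E : ℝ) + α)) ∂μ) (𝓝[>] 0)
      (𝓝 (v ^ α - φ x * ∫ h in Ext E R, ‖h‖ ^ (-((Module.finrank ℝ E : ℝ) + α)) ∂μ)) := by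
  have h1 : Tendsto (fun ε => ∫ h in Ext E ε,
      (φ x - φ (x + v • h)) * ‖h‖ ^ (-((Module.finrank ℝ E : ℝ) + α)) ∂μ) (𝓝[>] 0) (𝓝 (v ^ α)) := by
    simp only [scale_integral μ x hv]
    have h2 : Tendsto (fun ε : ℝ => v * ε) (𝓝[>] 0) (𝓝[>] 0) := by
      refine tendsto_nhdsWithin_iff.2 ⟨?_, ?_⟩
      · have : Tendsto (fun ε : ℝ => v * ε) (𝓝 0) (𝓝 (v * 0)) := tendsto_id.const_mul v
        rw [mul_zero] at this
        exact this.mono_left nhdsWithin_le_nhds
      · filter_upwards [self_mem_nhdsWithin] with ε hε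
        exact mul_pos hv hε
    have h3 := ((H.hpv x hx).comp h2).const_mul (v ^ α)
    rw [mul_one] at h3
    exact h3
  refine (h1.sub_const (φ x * ∫ h in Ext E R, ‖h‖ ^ (-((Module.finrank ℝ E : ℝ) + α)) ∂μ)).congr' ?_
  filter_upwards [Ioo_mem_nhdsGT hR] with ε hε
  have hset : Ext E ε = (Ext E ε ∩ closedBall (0:E) R) ∪ Ext E R := by
    ext h
    simp only [Ext, mem_inter_iff, mem_ofPred_eq, mem_closedBall, dist_zero_right, mem_union]
    constructor
    · intro h1
      rcases lt_or_ge R ‖h‖ with h3 | h3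
      · exact Or.inr h3
      · exact Or.inl ⟨h1, h3⟩
    · rintro (⟨h1, _⟩ | h1)
      · exact h1
      · exact hε.2.trans h1
  have hdisj : Disjoint (Ext E ε ∩ closedBall (0:E) R) (Ext E R) := by
    rw [Set.disjoint_left]
    rintro h ⟨_, h2⟩ h1
    have h1' : R < ‖h‖ := h1
    have h2' : ‖h‖ ≤ R := by simpa using h2
    linarith
  have hint := H.integrableOn hα x v hε.1
  have hR' : ∫ h in Ext E R, (φ x - φ (x + v • h)) * ‖h‖ ^ (-((Module.finrank ℝ E : ℝ) + α)) ∂μ =
      φ x * ∫ h in Ext E R, ‖h‖ ^ (-((Module.finrank ℝ E : ℝ) + α)) ∂μ := by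
    rw [← integral_const_mul]
    refine setIntegral_congr_fun (measurableSet_Ext R) (fun h hh => ?_)
    rw [hvan h hh, sub_zero]
  have hsum : ∫ h in Ext E ε, (φ x - φ (x + v • h)) * ‖h‖ ^ (-((Module.finrank ℝ E : ℝ) + α)) ∂μ =
      (∫ h in Ext E ε ∩ closedBall (0:E) R,
        (φ x - φ (x + v • h)) * ‖h‖ ^ (-((Module.finrank ℝ E : ℝ) + α)) ∂μ) +
      ∫ h in Ext E R, (φ x - φ (x + v • h)) * ‖h‖ ^ (-((Module.finrank ℝ E : ℝ) + α)) ∂μ := by
    nth_rewrite 1 [hset]
    exact setIntegral_union hdisj (measurableSet_Ext R) (hint.mono_set inter_subset_left)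
      (H.integrableOn hα x v hR)
  rw [hsum, hR']
  ring

/-- positivity of the tail mass -/
lemma tail_pos (hα : 0 < α) {R : ℝ} (hR : 0 < R) :
    0 < ∫ h in Ext E R, ‖h‖ ^ (-((Module.finrank ℝ E : ℝ) + α)) ∂μ := by
  rw [setIntegral_pos_iff_support_of_nonneg_ae
    (ae_of_all _ fun h => Real.rpow_nonneg (norm_nonneg _) _) (kernel_integrableOn μ hα hR)]
  have hopen : IsOpen (Ext E R) := isOpen_lt continuous_const continuous_norm
  have hne : (Ext E R).Nonempty := by
    obtain ⟨e, he⟩ := exists_norm_eq E (show (0:ℝ) ≤ R + 1 by linarith)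
    exact ⟨e, by show R < ‖e‖; linarith⟩
  refine lt_of_lt_of_le (hopen.measure_pos μ hne) (measure_mono fun h hh => ⟨?_, hh⟩)
  have hh' : R < ‖h‖ := hh
  exact (Real.rpow_pos_of_pos (hR.trans hh') _).ne'

lemma majorant_integrableOn (hα : 0 < α) (ξ : E →L[ℝ] ℝ) {R : ℝ} (hR : 0 < R) {ε : ℝ}
    (hε : 0 < ε) : IntegrableOn (fun h : E => ((max (1 + ξ h) 0) ^ α - 1) *
      ‖h‖ ^ (-((Module.finrank ℝ E : ℝ) + α))) (Ext E ε ∩ closedBall (0:E) R) μ := by
  have hk := (kernel_integrableOn μ hα hε).mono_set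
    (inter_subset_left (t := closedBall (0:E) R))
  refine Integrable.mono' (hk.const_mul ((1 + ‖ξ‖ * R) ^ α + 1))
    (Measurable.aestronglyMeasurable ?_) ?_
  · refine Measurable.mul ?_ (measurable_norm.pow_const _)
    exact (Measurable.pow_const (by fun_prop) _).sub_const _
  · refine (ae_restrict_iff' ((measurableSet_Ext ε).inter
      isClosed_closedBall.measurableSet)).2 (ae_of_all _ fun h hh => ?_)
    have hhR : ‖h‖ ≤ R := by simpa using hh.2
    rw [norm_mul, Real.norm_eq_abs (‖h‖ ^ _), abs_of_nonneg (Real.rpow_nonneg (norm_nonneg _) _)]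
    refine mul_le_mul_of_nonneg_right ?_ (Real.rpow_nonneg (norm_nonneg _) _)
    have h1 : ξ h ≤ ‖ξ‖ * R := (le_abs_self _).trans ((ξ.le_opNorm h).trans
      (mul_le_mul_of_nonneg_left hhR (norm_nonneg _)))
    have h2 : (max (1 + ξ h) 0) ^ α ≤ (1 + ‖ξ‖ * R) ^ α :=
      Real.rpow_le_rpow (le_max_right _ _) (max_le (by linarith) (by positivity)) hα.le
    have h3 : 0 ≤ (max (1 + ξ h) 0) ^ α := Real.rpow_nonneg (le_max_right _ _) _
    rw [Real.norm_eq_abs, abs_le]
    constructor <;> linarith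

lemma ofReal_integral_le {f : E → ℝ} {A : Set E} (hf : IntegrableOn f A μ) :
    ENNReal.ofReal (∫ h in A, f h ∂μ) ≤ ∫⁻ h in A, ENNReal.ofReal (f h) ∂μ := by
  have h1 : IntegrableOn (fun h => max (f h) 0) A μ := hf.pos_part
  have h2 : ∫ h in A, f h ∂μ ≤ ∫ h in A, max (f h) 0 ∂μ :=
    integral_mono hf h1 (fun h => le_max_left _ _)
  refine (ENNReal.ofReal_le_ofReal h2).trans ?_
  rw [ofReal_integral_eq_lintegral_ofReal h1 (ae_of_all _ fun h => le_max_right _ _)]
  refine lintegral_mono fun h => ?_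
  rcases le_total (f h) 0 with h3 | h3
  · simp only [max_eq_right h3]
    rw [ENNReal.ofReal_zero]
    exact zero_le
  · simp only [max_eq_left h3]
    exact le_rfl

/-- The concave envelope of `φ ^ (1 / α)` does not exceed `φ ^ (1 / α)`. -/
theorem TorsionData.hull_le (H : TorsionData μ α D φ) (hα : 0 < α)
    (hM : ∀ (ξ : E →L[ℝ] ℝ) (R : ℝ), 0 < R → ∃ M : ℝ,
      Tendsto (fun ε => ∫ h in Ext E ε ∩ closedBall (0:E) R,
      ((max (1 + ξ h) 0) ^ α - 1) * ‖h‖ ^ (-((Module.finrank ℝ E : ℝ) + α)) ∂μ) (𝓝[>] 0) (𝓝 M)) :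
    ∀ p ∈ convexHull ℝ ((fun y => (y, φ y ^ (1 / α))) '' closure D), p.2 ^ α ≤ φ p.1 := by
  classical
  have hαinv : 0 < 1 / α := by positivity
  set G : Set (E × ℝ) := (fun y => (y, φ y ^ (1 / α))) '' closure D with hG
  set C : Set (E × ℝ) := convexHull ℝ G with hCdef
  have hC : Convex ℝ C := convex_convexHull ℝ G
  have hgc : Continuous (fun y : E => (y, φ y ^ (1 / α))) :=
    continuous_id.prodMk (H.hφ.rpow_const (fun _ => Or.inr hαinv.le))
  have hCc : IsCompact C := isCompact_convexHull_of_isCompact (H.compact.image hgc)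
  have hgC : ∀ y ∈ closure D, (y, φ y ^ (1 / α)) ∈ C := fun y hy =>
    subset_convexHull ℝ G ⟨y, hy, rfl⟩
  -- structure of the hull
  have hQ : C ⊆ {p : E × ℝ | p.1 ∈ closure D ∧ 0 ≤ p.2 ∧ (0 < p.2 → p.1 ∈ D)} := by
    refine convexHull_min ?_ ?_
    · rintro _ ⟨y, hy, rfl⟩
      refine ⟨hy, Real.rpow_nonneg (H.nonneg y) _, fun hpos => ?_⟩
      refine H.mem_of_pos ?_
      rcases (H.nonneg y).eq_or_lt with h | h
      · simp only [← h, Real.zero_rpow hαinv.ne'] at hpos
        exact absurd hpos (lt_irrefl _)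
      · exact h
    · rintro ⟨y1, t1⟩ ⟨h1, h2, h3⟩ ⟨y2, t2⟩ ⟨k1, k2, k3⟩ a b ha hb hab
      simp only at h1 h2 h3 k1 k2 k3
      refine ⟨?_, ?_, ?_⟩
      · exact H.hDc.closure h1 k1 ha hb hab
      · simp only [Prod.smul_mk, Prod.mk_add_mk, smul_eq_mul]
        positivity
      · intro hpos
        simp only [Prod.smul_mk, Prod.mk_add_mk, smul_eq_mul] at hpos ⊢
        have hcase : (0 < a ∧ 0 < t1) ∨ (0 < b ∧ 0 < t2) := by
          by_contra hcon
          push Not at hcon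
          have e1 : a * t1 = 0 := by
            rcases ha.eq_or_lt with h | h
            · rw [← h, zero_mul]
            · have := le_antisymm (hcon.1 h) h2
              rw [this, mul_zero]
          have e2 : b * t2 = 0 := by
            rcases hb.eq_or_lt with h | h
            · rw [← h, zero_mul]
            · have := le_antisymm (hcon.2 h) k2
              rw [this, mul_zero]
          linarith
        rcases hcase with ⟨ha', ht⟩ | ⟨hb', ht⟩
        · have := H.hDc.combo_interior_closure_mem_interior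
            (by rw [H.hD.interior_eq]; exact h3 ht) k1 ha' hb hab
          rwa [H.hD.interior_eq] at this
        · have := H.hDc.combo_interior_closure_mem_interior
            (by rw [H.hD.interior_eq]; exact k3 ht) h1 hb' ha (by linarith)
          rw [H.hD.interior_eq, add_comm] at this
          exact this
  have hC0 : ∀ y t, (y, t) ∈ C → 0 ≤ t := fun y t h => (hQ h).2.1
  by_contra hcon
  push Not at hcon
  obtain ⟨p0, hp0, hp0'⟩ := hcon
  have hfc : Continuous (fun p : E × ℝ => p.2 ^ α - φ p.1) :=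
    (continuous_snd.rpow_const (fun _ => Or.inr hα.le)).sub (H.hφ.comp continuous_fst)
  obtain ⟨⟨X, s⟩, hXs, hmax⟩ := hCc.exists_isMaxOn ⟨p0, hp0⟩ hfc.continuousOn
  set m0 := s ^ α - φ X with hm0
  have hm0pos : 0 < m0 := by
    have h1 : p0.2 ^ α - φ p0.1 ≤ s ^ α - φ X := hmax hp0
    linarith
  have hs0 : 0 ≤ s := hC0 _ _ hXs
  have hspos : 0 < s := by
    rcases hs0.eq_or_lt with h | h
    · exfalso
      rw [hm0, ← h, Real.zero_rpow hα.ne'] at hm0pos
      linarith [H.nonneg X]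
    · exact h
  have hXD : X ∈ D := (hQ hXs).2.2 hspos
  have hsα : 0 < s ^ α := Real.rpow_pos_of_pos hspos _
  obtain ⟨ι, _, z, w, hz, -, hw, hw1, hsum⟩ := eq_pos_convex_span_of_mem_convexHull hXs
  have hzG : ∀ i, (z i).2 = φ (z i).1 ^ (1 / α) := by
    intro i
    obtain ⟨y, -, hy⟩ := hz ⟨i, rfl⟩
    rw [← hy]
  have hzC : ∀ i, ((z i).1, (z i).2) ∈ C := fun i => subset_convexHull ℝ G (hz ⟨i, rfl⟩)
  have hX : ∑ i, w i • (z i).1 = X := by
    have := congrArg Prod.fst hsum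
    rwa [Prod.fst_sum] at this
  have hs : ∑ i, w i * (z i).2 = s := by
    have := congrArg Prod.snd hsum
    rw [Prod.snd_sum] at this
    simpa using this
  have htop : ∀ t, (X, t) ∈ C → t ≤ s := by
    intro t ht
    have h1 : t ^ α - φ X ≤ s ^ α - φ X := hmax ht
    exact (Real.rpow_le_rpow_iff (hC0 _ _ ht) hs0 hα).1 (by linarith)
  obtain ⟨ξ, hξ⟩ := exists_support hC H.hD
    (fun y hy => ⟨φ y ^ (1 / α), Real.rpow_nonneg (H.nonneg y) _, hgC y (subset_closure hy)⟩)
    hXD hs0 htop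
  obtain ⟨B, hB, hDB, hφB⟩ := H.vanish
  have hz0 : ∀ i, 0 ≤ (z i).2 := fun i => hC0 _ _ (hzC i)
  set R : ℝ := (∑ i, 2 * B / (z i).2) + 2 * B / s + 1 with hR
  have hsumnn : ∀ i, 0 ≤ 2 * B / (z i).2 := fun i => div_nonneg (by positivity) (hz0 i)
  have hRpos : 0 < R := by
    have : 0 ≤ ∑ i, 2 * B / (z i).2 := Finset.sum_nonneg (fun i _ => hsumnn i)
    have : 0 < 2 * B / s := by positivity
    positivity
  have hRi : ∀ i, 2 * B / (z i).2 ≤ R := by
    intro i
    have h1 := Finset.single_le_sum (fun j _ => hsumnn j) (Finset.mem_univ i)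
    have h2 : 0 < 2 * B / s := by positivity
    linarith
  have hRs : 2 * B / s ≤ R := by
    have : 0 ≤ ∑ i, 2 * B / (z i).2 := Finset.sum_nonneg (fun i _ => hsumnn i)
    linarith
  obtain ⟨M, hMlim⟩ := hM ξ R hRpos
  set tR := ∫ h in Ext E R, ‖h‖ ^ (-((Module.finrank ℝ E : ℝ) + α)) ∂μ with htR
  have htRpos : 0 < tR := tail_pos hα hRpos
  have hceq := contact_eq hw hw1 hzC hX hs hξ
  have hvpow : ∀ i, ((z i).2) ^ α = φ (z i).1 := by
    intro i
    rw [hzG i, ← Real.rpow_mul (H.nonneg _), one_div, inv_mul_cancel₀ hα.ne', Real.rpow_one]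
  -- convergence for contact points with positive value
  have hcontact : ∀ i, 0 < (z i).2 → 0 ≤ M + 1 - tR ∧
      ∫⁻ h in closedBall (0:E) R, ENNReal.ofReal
        (((max (1 + ξ h) 0) ^ α - φ ((z i).1 + (z i).2 • h) / ((z i).2) ^ α) *
          ‖h‖ ^ (-((Module.finrank ℝ E : ℝ) + α))) ∂μ ≤ ENNReal.ofReal (M + 1 - tR) := by
    intro i hvi
    have hviα : 0 < ((z i).2) ^ α := Real.rpow_pos_of_pos hvi _
    have hφi : 0 < φ (z i).1 := by rw [← hvpow i]; exact hviα
    have hxi : (z i).1 ∈ D := H.mem_of_pos hφi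
    have hvan : ∀ h : E, R < ‖h‖ → φ ((z i).1 + (z i).2 • h) = 0 := fun h hh =>
      vanish_ray hB hDB hφB (hDB _ hxi) hvi (hRi i) hh
    have hlim := H.tendsto_cut hα hxi hvi hRpos hvan
    have hfeq : ∀ h : E, ((max (1 + ξ h) 0) ^ α - φ ((z i).1 + (z i).2 • h) / ((z i).2) ^ α) *
          ‖h‖ ^ (-((Module.finrank ℝ E : ℝ) + α)) =
        ((max (1 + ξ h) 0) ^ α - 1) * ‖h‖ ^ (-((Module.finrank ℝ E : ℝ) + α)) +
        (((z i).2) ^ α)⁻¹ * ((φ (z i).1 - φ ((z i).1 + (z i).2 • h)) *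
          ‖h‖ ^ (-((Module.finrank ℝ E : ℝ) + α))) := by
      intro h
      rw [← hvpow i]
      field_simp
      ring
    have hint2 : ∀ ε > 0, IntegrableOn (fun h => (φ (z i).1 - φ ((z i).1 + (z i).2 • h)) *
          ‖h‖ ^ (-((Module.finrank ℝ E : ℝ) + α))) (Ext E ε ∩ closedBall (0:E) R) μ := fun ε hε =>
      (H.integrableOn hα _ _ hε).mono_set inter_subset_left
    have hfi : ∀ ε > 0, IntegrableOn (fun h => ((max (1 + ξ h) 0) ^ α -
        φ ((z i).1 + (z i).2 • h) / ((z i).2) ^ α) * ‖h‖ ^ (-((Module.finrank ℝ E : ℝ) + α)))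
        (Ext E ε ∩ closedBall (0:E) R) μ := by
      intro ε hε
      simp only [hfeq]
      exact (majorant_integrableOn hα ξ hRpos hε).add ((hint2 ε hε).const_mul _)
    have hL : Tendsto (fun ε => ∫ h in Ext E ε ∩ closedBall (0:E) R,
        ((max (1 + ξ h) 0) ^ α - φ ((z i).1 + (z i).2 • h) / ((z i).2) ^ α) *
          ‖h‖ ^ (-((Module.finrank ℝ E : ℝ) + α)) ∂μ) (𝓝[>] 0) (𝓝 (M + 1 - tR)) := by
      have h1 := hMlim.add (hlim.const_mul (((z i).2) ^ α)⁻¹)
      have h2 : M + (((z i).2) ^ α)⁻¹ * (((z i).2) ^ α - φ (z i).1 * tR) = M + 1 - tR := by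
        rw [← hvpow i]
        field_simp
        ring
      rw [h2] at h1
      refine h1.congr' ?_
      filter_upwards [self_mem_nhdsWithin] with ε hε
      simp only [hfeq]
      rw [integral_add (majorant_integrableOn hα ξ hRpos hε) ((hint2 ε hε).const_mul _),
        integral_const_mul]
    have hnn : ∀ h : E, 0 ≤ ((max (1 + ξ h) 0) ^ α -
        φ ((z i).1 + (z i).2 • h) / ((z i).2) ^ α) * ‖h‖ ^ (-((Module.finrank ℝ E : ℝ) + α)) := by
      intro h
      refine mul_nonneg (sub_nonneg.2 ?_) (Real.rpow_nonneg (norm_nonneg _) _)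
      rw [div_le_iff₀ hviα]
      rcases (H.nonneg ((z i).1 + (z i).2 • h)).eq_or_lt with h0 | h0
      · rw [← h0]
        exact mul_nonneg (Real.rpow_nonneg (le_max_right _ _) _) hviα.le
      · have hmem := hgC _ (subset_closure (H.mem_of_pos h0))
        have h1 := hξ _ _ hmem
        have h2 : ξ ((z i).1 + (z i).2 • h - X) = ξ ((z i).1 - X) + (z i).2 * ξ h := by
          rw [show (z i).1 + (z i).2 • h - X = ((z i).1 - X) + (z i).2 • h by abel, map_add,
            map_smul, smul_eq_mul]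
        rw [h2] at h1
        have h3 := hceq i
        have h4 : φ ((z i).1 + (z i).2 • h) ^ (1 / α) ≤ (z i).2 * max (1 + ξ h) 0 := by
          have h5 : (z i).2 * (1 + ξ h) ≤ (z i).2 * max (1 + ξ h) 0 :=
            mul_le_mul_of_nonneg_left (le_max_left _ _) hvi.le
          linarith
        have h5 := Real.rpow_le_rpow (Real.rpow_nonneg h0.le _) h4 hα.le
        rw [← Real.rpow_mul h0.le, one_div, inv_mul_cancel₀ hα.ne', Real.rpow_one,
          Real.mul_rpow hvi.le (le_max_right _ _)] at h5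
        linarith [h5, mul_comm (((z i).2) ^ α) ((max (1 + ξ h) 0) ^ α)]
    refine ⟨?_, ?_⟩
    · refine ge_of_tendsto hL (Eventually.of_forall fun ε => ?_)
      exact integral_nonneg hnn
    · refine lintegral_le_of_tendsto μ isClosed_closedBall.measurableSet ?_ hnn ?_ hfi hL
      · refine Measurable.mul ?_ (measurable_norm.pow_const _)
        refine Measurable.sub (Measurable.pow_const (by fun_prop) _) ?_
        exact (H.hφ.measurable.comp (by fun_prop)).div_const _
      · rw [norm_zero, Real.zero_rpow, mul_zero]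
        have : (0:ℝ) < (Module.finrank ℝ E : ℝ) + α := by positivity
        linarith
  have hL0 : 0 ≤ M + 1 - tR := by
    have hex : ∃ i, 0 < (z i).2 := by
      by_contra hcon
      push Not at hcon
      have : ∑ i, w i * (z i).2 ≤ 0 := Finset.sum_nonpos (fun i _ =>
        mul_nonpos_of_nonneg_of_nonpos (hw i).le (hcon i))
      linarith
    obtain ⟨i, hi⟩ := hex
    exact (hcontact i hi).1
  -- apply the pairing inequality
  have hpair := pairing_integral μ (Φ := φ) (Ψ := fun y => φ y + m0) hα hC H.hφ H.nonneg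
    (fun y hy => hgC y (subset_closure (H.mem_of_pos hy)))
    (fun y => add_nonneg (H.nonneg y) hm0pos.le) (H.hφ.measurable.add_const _) hC0
    (fun y t hyt => by
      have h1 : t ^ α - φ y ≤ s ^ α - φ X := hmax hyt
      linarith)
    hw hw1 hzG hzC hX hs hspos hξ hRpos
  have hRHS : ∑ i, ENNReal.ofReal (w i * (z i).2 / s) * ∫⁻ h in closedBall (0:E) R, ENNReal.ofReal
      (((max (1 + ξ h) 0) ^ α - φ ((z i).1 + (z i).2 • h) / ((z i).2) ^ α) *
        ‖h‖ ^ (-((Module.finrank ℝ E : ℝ) + α))) ∂μ ≤ ENNReal.ofReal (M + 1 - tR) := by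
    have hone : ∑ i, ENNReal.ofReal (w i * (z i).2 / s) = 1 := by
      rw [← ENNReal.ofReal_sum_of_nonneg (fun i _ =>
        div_nonneg (mul_nonneg (hw i).le (hz0 i)) hspos.le), ← Finset.sum_div, hs,
        div_self hspos.ne', ENNReal.ofReal_one]
    calc _ ≤ ∑ i, ENNReal.ofReal (w i * (z i).2 / s) * ENNReal.ofReal (M + 1 - tR) := by
          refine Finset.sum_le_sum (fun i _ => ?_)
          rcases (hz0 i).eq_or_lt with h | h
          · rw [← h, mul_zero, zero_div, ENNReal.ofReal_zero, zero_mul, zero_mul]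
          · gcongr
            exact (hcontact i h).2
      _ = ENNReal.ofReal (M + 1 - tR) := by rw [← Finset.sum_mul, hone, one_mul]
  -- the limit at the maximum point
  have hvanX : ∀ h : E, R < ‖h‖ → φ (X + s • h) = 0 := fun h hh =>
    vanish_ray hB hDB hφB (hDB _ hXD) hspos hRs hh
  have hlimX := H.tendsto_cut hα hXD hspos hRpos hvanX
  have hfeqX : ∀ h : E, ((max (1 + ξ h) 0) ^ α - (φ (X + s • h) + m0) / s ^ α) *
        ‖h‖ ^ (-((Module.finrank ℝ E : ℝ) + α)) =
      ((max (1 + ξ h) 0) ^ α - 1) * ‖h‖ ^ (-((Module.finrank ℝ E : ℝ) + α)) +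
      (s ^ α)⁻¹ * ((φ X - φ (X + s • h)) * ‖h‖ ^ (-((Module.finrank ℝ E : ℝ) + α))) := by
    intro h
    rw [hm0]
    field_simp
    ring
  have hint2 : ∀ ε > 0, IntegrableOn (fun h => (φ X - φ (X + s • h)) *
        ‖h‖ ^ (-((Module.finrank ℝ E : ℝ) + α))) (Ext E ε ∩ closedBall (0:E) R) μ := fun ε hε =>
    (H.integrableOn hα _ _ hε).mono_set inter_subset_left
  have hfi : ∀ ε > 0, IntegrableOn (fun h => ((max (1 + ξ h) 0) ^ α -
      (φ (X + s • h) + m0) / s ^ α) * ‖h‖ ^ (-((Module.finrank ℝ E : ℝ) + α)))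
      (Ext E ε ∩ closedBall (0:E) R) μ := by
    intro ε hε
    simp only [hfeqX]
    exact (majorant_integrableOn hα ξ hRpos hε).add ((hint2 ε hε).const_mul _)
  have hL' : Tendsto (fun ε => ∫ h in Ext E ε ∩ closedBall (0:E) R,
      ((max (1 + ξ h) 0) ^ α - (φ (X + s • h) + m0) / s ^ α) *
        ‖h‖ ^ (-((Module.finrank ℝ E : ℝ) + α)) ∂μ) (𝓝[>] 0) (𝓝 (M + 1 - (φ X / s ^ α) * tR)) := by
    have h1 := hMlim.add (hlimX.const_mul (s ^ α)⁻¹)
    have h2 : M + (s ^ α)⁻¹ * (s ^ α - φ X * tR) = M + 1 - (φ X / s ^ α) * tR := by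
      field_simp
      ring
    rw [h2] at h1
    refine h1.congr' ?_
    filter_upwards [self_mem_nhdsWithin] with ε hε
    simp only [hfeqX]
    rw [integral_add (majorant_integrableOn hα ξ hRpos hε) ((hint2 ε hε).const_mul _),
      integral_const_mul]
  have hfinal : M + 1 - (φ X / s ^ α) * tR ≤ M + 1 - tR := by
    refine le_of_tendsto hL' ?_
    filter_upwards [self_mem_nhdsWithin] with ε hε
    have h1 := ofReal_integral_le (hfi ε hε)
    have h2 : ∫⁻ h in Ext E ε ∩ closedBall (0:E) R, ENNReal.ofReal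
        (((max (1 + ξ h) 0) ^ α - (φ (X + s • h) + m0) / s ^ α) *
          ‖h‖ ^ (-((Module.finrank ℝ E : ℝ) + α))) ∂μ ≤
        ∫⁻ h in closedBall (0:E) R, ENNReal.ofReal
        (((max (1 + ξ h) 0) ^ α - (φ (X + s • h) + m0) / s ^ α) *
          ‖h‖ ^ (-((Module.finrank ℝ E : ℝ) + α))) ∂μ := lintegral_mono_set inter_subset_right
    exact (ENNReal.ofReal_le_ofReal_iff hL0).1 (h1.trans (h2.trans (hpair.trans hRHS)))
  have h1 : φ X / s ^ α < 1 := by
    rw [div_lt_one hsα]; linarith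
  nlinarith

end Pool.Agent.TH276.Torsion
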