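import Mathlib
import Pool.Agent.TH276.Torsion.Main

set_option autoImplicit false

open MeasureTheory Set Metric Filter Topology
open scoped ENNReal

namespace Pool.Agent.TH276.Torsion

variable {E : Type*} [NormedAddCommGroup E] [NormedSpace ℝ E] [FiniteDimensional ℝ E]
  [MeasurableSpace E] [BorelSpace E] [Nontrivial E] {μ : Measure E} [μ.IsAddHaarMeasure]


variable {α : ℝ} {D : Set E} {φ : E → ℝ}

/-- The `1 / α` power of the torsion function is concave. -/
theorem TorsionData.concaveOn_rpow (H : TorsionData μ α D φ) (hα : 0 < α)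
    (hM : ∀ (ξ : E →L[ℝ] ℝ) (R : ℝ), 0 < R → ∃ M : ℝ,
      Tendsto (fun ε => ∫ h in Ext E ε ∩ closedBall (0:E) R,
      ((max (1 + ξ h) 0) ^ α - 1) * ‖h‖ ^ (-((Module.finrank ℝ E : ℝ) + α)) ∂μ) (𝓝[>] 0) (𝓝 M)) :
    ConcaveOn ℝ D (fun y => φ y ^ (1 / α)) := by
  refine ⟨H.hDc, fun x hx y hy a b ha hb hab => ?_⟩
  have hmem : (a • x + b • y, a * φ x ^ (1 / α) + b * φ y ^ (1 / α)) ∈
      convexHull ℝ ((fun y => (y, φ y ^ (1 / α))) '' closure D) := by
    have := (convex_convexHull ℝ ((fun y => (y, φ y ^ (1 / α))) '' closure D))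
      (subset_convexHull ℝ _ ⟨x, subset_closure hx, rfl⟩)
      (subset_convexHull ℝ _ ⟨y, subset_closure hy, rfl⟩) ha hb hab
    simpa using this
  have h1 := H.hull_le hα hM _ hmem
  simp only at h1
  have hnn : 0 ≤ a * φ x ^ (1 / α) + b * φ y ^ (1 / α) :=
    add_nonneg (mul_nonneg ha (Real.rpow_nonneg (H.nonneg x) _))
      (mul_nonneg hb (Real.rpow_nonneg (H.nonneg y) _))
  have h2 := Real.rpow_le_rpow (Real.rpow_nonneg hnn _) h1 (show 0 ≤ 1 / α by positivity)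
  rw [← Real.rpow_mul hnn, mul_one_div, div_self hα.ne', Real.rpow_one] at h2
  exact h2

/-- The torsion function itself is concave when `α ≤ 1`. -/
theorem TorsionData.concaveOn (H : TorsionData μ α D φ) (hα : 0 < α) (hα1 : α ≤ 1)
    (hM : ∀ (ξ : E →L[ℝ] ℝ) (R : ℝ), 0 < R → ∃ M : ℝ,
      Tendsto (fun ε => ∫ h in Ext E ε ∩ closedBall (0:E) R,
      ((max (1 + ξ h) 0) ^ α - 1) * ‖h‖ ^ (-((Module.finrank ℝ E : ℝ) + α)) ∂μ) (𝓝[>] 0) (𝓝 M)) :
    ConcaveOn ℝ D φ := by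
  refine ⟨H.hDc, fun x hx y hy a b ha hb hab => ?_⟩
  have hpow : ∀ y, (φ y ^ (1 / α)) ^ α = φ y := by
    intro y
    rw [← Real.rpow_mul (H.nonneg y), one_div, inv_mul_cancel₀ hα.ne', Real.rpow_one]
  have h1 := (H.concaveOn_rpow hα hM).2 hx hy ha hb hab
  simp only [smul_eq_mul] at h1 ⊢
  have h2 := (Real.concaveOn_rpow hα.le hα1).2
    (show φ x ^ (1 / α) ∈ Ici (0:ℝ) from Real.rpow_nonneg (H.nonneg x) _)
    (show φ y ^ (1 / α) ∈ Ici (0:ℝ) from Real.rpow_nonneg (H.nonneg y) _) ha hb hab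
  simp only [smul_eq_mul, hpow] at h2
  refine h2.trans ?_
  have hnn : 0 ≤ a * φ x ^ (1 / α) + b * φ y ^ (1 / α) :=
    add_nonneg (mul_nonneg ha (Real.rpow_nonneg (H.nonneg x) _))
      (mul_nonneg hb (Real.rpow_nonneg (H.nonneg y) _))
  have h3 := Real.rpow_le_rpow hnn h1 hα.le
  rwa [hpow] at h3

/-- An absolutely convergent integral equals its principal value. -/
lemma tendsto_pv_of_integrable {x : E} {F : E → ℝ} (hF : Integrable F μ) (hx : F x = 0) :
    Tendsto (fun ε : ℝ => ∫ y in {y : E | ε < ‖x - y‖}, F y ∂μ) (𝓝[>] 0) (𝓝 (∫ y, F y ∂μ)) := by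
  have hset : ∀ ε : ℝ, MeasurableSet {y : E | ε < ‖x - y‖} := fun ε =>
    measurableSet_lt measurable_const (by fun_prop)
  have h1 : ∀ ε : ℝ, ∫ y in {y : E | ε < ‖x - y‖}, F y ∂μ =
      ∫ y, ({y : E | ε < ‖x - y‖}).indicator F y ∂μ := fun ε =>
    (integral_indicator (hset ε)).symm
  simp only [h1]
  refine tendsto_integral_filter_of_dominated_convergence (fun h => ‖F h‖)
    (Eventually.of_forall fun ε => hF.aestronglyMeasurable.indicator (hset ε))
    (Eventually.of_forall fun ε => ae_of_all _ fun h => norm_indicator_le_norm_self _ _)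
    hF.norm (ae_of_all _ fun h => ?_)
  by_cases h0 : h = x
  · subst h0
    rw [hx]
    refine tendsto_const_nhds.congr (fun ε => ?_)
    by_cases hm : h ∈ {y : E | ε < ‖h - y‖}
    · rw [indicator_of_mem hm, hx]
    · rw [indicator_of_notMem hm]
  · have hpos : 0 < ‖x - h‖ := norm_pos_iff.2 (sub_ne_zero.2 (Ne.symm h0))
    refine tendsto_const_nhds.congr' ?_
    filter_upwards [Ioo_mem_nhdsGT hpos] with ε hε
    rw [indicator_of_mem (show h ∈ {y : E | ε < ‖x - y‖} from hε.2)]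

end Pool.Agent.TH276.Torsion
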